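import Pool.Agent.H306R2.SM.Stubs
import Pool.Agent.H306R2.Window

set_option autoImplicit false

/-! Assembly 1: integrability and the basic inequality. -/

namespace Pool.Agent.H306R2.SM

open Finset Filter Topology MeasureTheory Complex

noncomputable section

lemma om_nonneg (k : ℕ) {δ t : ℝ} (hδ : 0 < δ) (ht : 0 ≤ t) : 0 ≤ om k δ t := by
  unfold om; positivity

lemma om_cont (k : ℕ) (δ : ℝ) : Continuous (om k δ) := by
  unfold om; fun_prop

/-- integrability of `om * (1+t)^A` -/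
lemma om_poly (k A : ℕ) {δ : ℝ} (hδ : 0 < δ) :
    IntegrableOn (fun t : ℝ => om k δ t * (1 + t) ^ A) (Set.Ioi 0) := by
  have h1 : ∀ j : ℕ, IntegrableOn (fun t : ℝ => t ^ (k + j) * Real.exp (-(δ * t))) (Set.Ioi 0) := by
    intro j
    have := Real.GammaIntegral_convergent (s := (k + j : ℕ) + 1) (by positivity)
    have h2 := (integrableOn_Ioi_comp_mul_left_iff (fun x : ℝ => Real.exp (-x) * x ^ (((k + j : ℕ):ℝ) + 1 - 1)) 0 hδ).mpr
      (by simpa using this)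
    have h3 : IntegrableOn (fun x => (δ ^ (k + j))⁻¹ *
        (Real.exp (-(δ * x)) * (δ * x) ^ (((k + j : ℕ) : ℝ) + 1 - 1))) (Set.Ioi 0) :=
      h2.const_mul ((δ ^ (k + j))⁻¹)
    refine h3.congr_fun (fun t ht => ?_) measurableSet_Ioi
    have ht0 : 0 < t := ht
    simp only [add_sub_cancel_right]
    rw [Real.rpow_natCast, mul_pow]
    field_simp
  have h4 : (fun t : ℝ => om k δ t * (1 + t) ^ A) = fun t : ℝ =>
      ∑ j ∈ range (A + 1), (δ ^ (k + 1) / (k.factorial : ℝ) * (A.choose j : ℝ)) *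
        (t ^ (k + j) * Real.exp (-(δ * t))) := by
    funext t
    rw [add_comm 1 t, add_pow, mul_sum]
    refine sum_congr rfl fun j _ => ?_
    unfold om
    rw [pow_add]
    ring
  rw [h4]
  exact integrable_finsetSum _ fun j _ => (h1 j).const_mul _

/-- integrability against `om` for polynomially bounded continuous functions -/
lemma om_int (k : ℕ) {δ : ℝ} (hδ : 0 < δ) {f : ℝ → ℂ} (hf : Continuous f)
    (hb : ∃ C : ℝ, ∃ A : ℕ, ∀ t : ℝ, 0 ≤ t → ‖f t‖ ≤ C * (1 + t) ^ A) :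
    IntegrableOn (fun t : ℝ => (om k δ t : ℂ) * f t) (Set.Ioi 0) := by
  obtain ⟨C, A, h⟩ := hb
  refine Integrable.mono' ((om_poly k A hδ).const_mul C) ?_ ?_
  · exact ((continuous_ofReal.comp (om_cont k δ)).mul hf).aestronglyMeasurable
  · refine (ae_restrict_iff' measurableSet_Ioi).mpr (Eventually.of_forall fun t ht => ?_)
    have ht0 : (0:ℝ) ≤ t := le_of_lt ht
    rw [norm_mul, Complex.norm_real, Real.norm_of_nonneg (om_nonneg k hδ ht0)]
    calc om k δ t * ‖f t‖ ≤ om k δ t * (C * (1 + t) ^ A) :=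
          mul_le_mul_of_nonneg_left (h t ht0) (om_nonneg k hδ ht0)
      _ = C * (om k δ t * (1 + t) ^ A) := by ring

lemma om_intR (k : ℕ) {δ : ℝ} (hδ : 0 < δ) {f : ℝ → ℝ} (hf : Continuous f)
    (hb : ∃ C : ℝ, ∃ A : ℕ, ∀ t : ℝ, 0 ≤ t → |f t| ≤ C * (1 + t) ^ A) :
    IntegrableOn (fun t : ℝ => om k δ t * f t) (Set.Ioi 0) := by
  obtain ⟨C, A, h⟩ := hb
  refine Integrable.mono' ((om_poly k A hδ).const_mul C) ?_ ?_
  · exact ((om_cont k δ).mul hf).aestronglyMeasurable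
  · refine (ae_restrict_iff' measurableSet_Ioi).mpr (Eventually.of_forall fun t ht => ?_)
    have ht0 : (0:ℝ) ≤ t := le_of_lt ht
    rw [norm_mul, Real.norm_of_nonneg (om_nonneg k hδ ht0), Real.norm_eq_abs]
    calc om k δ t * |f t| ≤ om k δ t * (C * (1 + t) ^ A) :=
          mul_le_mul_of_nonneg_left (h t ht0) (om_nonneg k hδ ht0)
      _ = C * (om k δ t * (1 + t) ^ A) := by ring

lemma ef_norm (θ t : ℝ) : ‖ef θ t‖ = 1 := by
  unfold ef
  rw [Complex.norm_exp_ofReal_mul_I]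

lemma ef_cont (θ : ℝ) : Continuous (ef θ) := by
  unfold ef; fun_prop

lemma ef_conj (θ t : ℝ) : (starRingEnd ℂ) (ef θ t) = ef (-θ) t := by
  unfold ef
  rw [← Complex.exp_conj]
  congr 1
  simp

lemma ef_mul (θ φ t : ℝ) : ef θ t * ef φ t = ef (θ + φ) t := by
  unfold ef
  rw [← Complex.exp_add]
  congr 1
  push_cast; ring

/-- polynomial boundedness class -/
def PG (f : ℝ → ℂ) : Prop := Continuous f ∧ ∃ C : ℝ, ∃ A : ℕ, 0 ≤ C ∧ ∀ t : ℝ, 0 ≤ t → ‖f t‖ ≤ C * (1 + t) ^ A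

lemma PG.mul {f g : ℝ → ℂ} (hf : PG f) (hg : PG g) : PG (fun t => f t * g t) := by
  obtain ⟨hfc, C, A, hC, hA⟩ := hf
  obtain ⟨hgc, D, B, hD, hB⟩ := hg
  refine ⟨hfc.mul hgc, C * D, A + B, mul_nonneg hC hD, fun t ht => ?_⟩
  rw [norm_mul, pow_add]
  calc ‖f t‖ * ‖g t‖ ≤ (C * (1 + t) ^ A) * (D * (1 + t) ^ B) :=
        mul_le_mul (hA t ht) (hB t ht) (norm_nonneg _) (by positivity)
    _ = _ := by ring

lemma PG.add {f g : ℝ → ℂ} (hf : PG f) (hg : PG g) : PG (fun t => f t + g t) := by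
  obtain ⟨hfc, C, A, hC, hA⟩ := hf
  obtain ⟨hgc, D, B, hD, hB⟩ := hg
  refine ⟨hfc.add hgc, C + D, A + B, add_nonneg hC hD, fun t ht => ?_⟩
  have h1 : (1:ℝ) ≤ 1 + t := by linarith
  have e1 : (1 + t) ^ A ≤ (1 + t) ^ (A + B) := pow_le_pow_right₀ h1 (Nat.le_add_right _ _)
  have e2 : (1 + t) ^ B ≤ (1 + t) ^ (A + B) := pow_le_pow_right₀ h1 (Nat.le_add_left _ _)
  calc ‖f t + g t‖ ≤ ‖f t‖ + ‖g t‖ := norm_add_le _ _
    _ ≤ C * (1 + t) ^ (A + B) + D * (1 + t) ^ (A + B) :=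
        add_le_add ((hA t ht).trans (mul_le_mul_of_nonneg_left e1 hC))
          ((hB t ht).trans (mul_le_mul_of_nonneg_left e2 hD))
    _ = _ := by ring

lemma PG.const (c : ℂ) : PG (fun _ => c) :=
  ⟨continuous_const, ‖c‖, 0, norm_nonneg _, fun t _ => by simp⟩

lemma PG.ef (θ : ℝ) : PG (ef θ) :=
  ⟨ef_cont θ, 1, 0, zero_le_one, fun t _ => by simp [ef_norm]⟩

lemma PG.X : PG (fun t => Xf (cl t)) :=
  ⟨Xf_continuous, 1, 0, zero_le_one, fun t _ => by simp [Xf_line]⟩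

lemma PG.conj {f : ℝ → ℂ} (hf : PG f) : PG (fun t => (starRingEnd ℂ) (f t)) := by
  obtain ⟨hfc, C, A, hC, hA⟩ := hf
  exact ⟨Complex.continuous_conj.comp hfc, C, A, hC, fun t ht => by
    rw [RCLike.norm_conj]; exact hA t ht⟩

lemma PG.pow {f : ℝ → ℂ} (hf : PG f) (n : ℕ) : PG (fun t => f t ^ n) := by
  induction n with
  | zero => simpa using PG.const 1
  | succ n ih => simpa [pow_succ] using ih.mul hf

lemma PG.sum {ι : Type*} (s : Finset ι) {f : ι → ℝ → ℂ} (hf : ∀ i ∈ s, PG (f i)) :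
    PG (fun t => ∑ i ∈ s, f i t) := by
  classical
  induction s using Finset.induction_on with
  | empty => simpa using PG.const 0
  | insert a s ha ih =>
    have := (hf a (mem_insert_self _ _)).add (ih fun i hi => hf i (mem_insert_of_mem hi))
    refine cast (congrArg PG ?_) this
    funext t
    rw [sum_insert ha]

lemma zeta_cl_bound (t : ℝ) (_ht : 0 ≤ t) : ‖riemannZeta (cl t)‖ ≤ 24 * (1 + t) ^ 2 := by
  have h := zeta_norm_le (s := cl t) (by simp [cl]) (by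
    have h1 : |(cl t - 1).re| ≤ ‖cl t - 1‖ := Complex.abs_re_le_norm _
    have h2 : |(cl t - 1).re| = 1 / 2 := by
      simp only [cl, Complex.sub_re, Complex.add_re, Complex.mul_re, Complex.ofReal_re,
        Complex.I_re, mul_zero, Complex.ofReal_im, Complex.I_im, mul_one, sub_self, add_zero,
        Complex.one_re]
      norm_num
    linarith)
  have h3 : ‖cl t‖ ≤ 1 / 2 + t := by
    unfold cl
    refine (norm_add_le _ _).trans ?_
    rw [norm_mul, Complex.norm_real, Complex.norm_I, mul_one, Real.norm_of_nonneg _ht]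
    norm_num
  refine h.trans ?_
  have h4 : (‖cl t‖ + 1) ^ 2 ≤ (2 * (1 + t)) ^ 2 := by
    apply pow_le_pow_left₀ (by positivity)
    linarith
  nlinarith

lemma cl_eq (t : ℝ) : cl t = 1 / 2 + (t : ℂ) * Complex.I := rfl

lemma PG.zeta : PG (fun t => riemannZeta (cl t)) :=
  ⟨zeta_line_continuous, 24, 2, by norm_num, fun t ht => zeta_cl_bound t ht⟩

lemma PG.int {f : ℝ → ℂ} (hf : PG f) (k : ℕ) {δ : ℝ} (hδ : 0 < δ) :
    IntegrableOn (fun t : ℝ => (om k δ t : ℂ) * f t) (Set.Ioi 0) := by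
  obtain ⟨hfc, C, A, hC, hA⟩ := hf
  exact om_int k hδ hfc ⟨C, A, hA⟩

end

end Pool.Agent.H306R2.SM
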