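import Pool.Agent.H306R2.SM.Asm3

set_option autoImplicit false

/-! Assembly 4: the index set and the off-diagonal terms. -/

namespace Pool.Agent.H306R2.SM

open Finset Filter Topology MeasureTheory Complex

noncomputable section

/-- coefficient function with cutoff -/
def phi (lam ε : ℝ) (u : Fin 2 → ℝ) : ℝ := Pf u * eta lam ε u

/-- index set -/
def Sset (lam ε T : ℝ) : Finset (Fin 2 → ℕ) := by
  classical
  exact (Fintype.piFinset fun _ : Fin 2 => Icc 1 ⌊T⌋₊).filter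
    (fun b => Nat.Coprime (b 0) (b 1) ∧ phi lam ε (pos (Real.log T) b) ≠ 0)

/-- coefficients -/
def cc (lam ε T : ℝ) (b : Fin 2 → ℕ) : ℝ :=
  Real.log T ^ 2 * (psi (b 0) / Real.sqrt ((b 0 : ℝ) * b 1)) * phi lam ε (pos (Real.log T) b)

/-- frequencies -/
def fr2 (b : Fin 2 → ℕ) : ℝ := Real.log ((b 0 : ℝ) / b 1)

lemma sc_ne {a δ x : ℝ} (hδ : 0 < δ) (h : sc a δ x ≠ 0) : x < a + δ := by
  by_contra h1
  exact h (sc_eq_zero hδ (not_lt.mp h1))

lemma eta_ne {lam ε : ℝ} (hε : 0 < ε) {u : Fin 2 → ℝ} (h : eta lam ε u ≠ 0) :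
    lam * u 0 + u 1 < 1 - ε ∧ u 0 - u 1 < 1 / 2 - ε ∧ u 1 - u 0 < -ε := by
  unfold eta at h
  have h1 := mul_ne_zero_iff.mp h
  have h2 := mul_ne_zero_iff.mp h1.1
  have a1 := sc_ne hε h2.1
  have a2 := sc_ne hε h2.2
  have a3 := sc_ne hε h1.2
  refine ⟨by linarith, by linarith, by linarith⟩

lemma eta_nonneg (lam ε : ℝ) (u : Fin 2 → ℝ) : 0 ≤ eta lam ε u :=
  mul_nonneg (mul_nonneg (sc_nonneg _ _ _) (sc_nonneg _ _ _)) (sc_nonneg _ _ _)

lemma eta_le_one (lam ε : ℝ) (u : Fin 2 → ℝ) : eta lam ε u ≤ 1 := by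
  unfold eta
  have h1 := sc_le_one (1 - 2 * ε) ε (lam * u 0 + u 1)
  have h2 := sc_le_one (1 / 2 - 2 * ε) ε (u 0 - u 1)
  have h3 := sc_le_one (-(2 * ε)) ε (u 1 - u 0)
  have g1 := sc_nonneg (1 - 2 * ε) ε (lam * u 0 + u 1)
  have g2 := sc_nonneg (1 / 2 - 2 * ε) ε (u 0 - u 1)
  have g3 := sc_nonneg (-(2 * ε)) ε (u 1 - u 0)
  exact mul_le_one₀ (mul_le_one₀ h1 g2 h2) g3 h3

lemma eta_cont (lam ε : ℝ) : Continuous (eta lam ε) := by
  unfold eta
  refine Continuous.mul (Continuous.mul ?_ ?_) ?_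
  · exact (sc_cont _ _).comp (by fun_prop)
  · exact (sc_cont _ _).comp (by fun_prop)
  · exact (sc_cont _ _).comp (by fun_prop)

lemma Pf_cont : Continuous Pf := by
  unfold Pf; fun_prop

lemma phi_cont (lam ε : ℝ) : Continuous (phi lam ε) := Pf_cont.mul (eta_cont lam ε)

lemma phi_ne {lam ε : ℝ} {u : Fin 2 → ℝ} (h : phi lam ε u ≠ 0) : eta lam ε u ≠ 0 := by
  unfold phi at h
  exact (mul_ne_zero_iff.mp h).2

lemma phi_abs {lam ε : ℝ} (hlam : 1 ≤ lam) (hε : 0 < ε) {u : Fin 2 → ℝ} (hu : ∀ i, 0 ≤ u i) :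
    |phi lam ε u| ≤ 1 := by
  by_cases h : eta lam ε u = 0
  · unfold phi; rw [h]; simp
  · obtain ⟨h1, h2, h3⟩ := eta_ne hε h
    have u0 := hu 0
    have u1 := hu 1
    have h0 : u 0 ≤ 1 := by nlinarith
    have h01 : u 1 ≤ 1 := by nlinarith
    unfold phi
    rw [abs_mul, abs_of_nonneg (eta_nonneg _ _ _)]
    have hP : |Pf u| ≤ 1 := by
      unfold Pf
      rw [abs_le]
      constructor <;> nlinarith
    calc |Pf u| * eta lam ε u ≤ 1 * 1 :=
          mul_le_mul hP (eta_le_one _ _ _) (eta_nonneg _ _ _) zero_le_one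
      _ = 1 := one_mul 1

lemma phi_zero {lam ε : ℝ} (hlam : 1 ≤ lam) (hε : 0 < ε) (u : Fin 2 → ℝ) (hu : ∀ i, 0 ≤ u i)
    (h : ∃ i, 1 ≤ u i) : phi lam ε u = 0 := by
  by_contra hne
  obtain ⟨h1, h2, h3⟩ := eta_ne hε (phi_ne hne)
  obtain ⟨i, hi⟩ := h
  have u0 := hu 0
  have u1 := hu 1
  fin_cases i
  · simp only [Fin.zero_eta, Fin.isValue] at hi
    nlinarith
  · simp only [Fin.mk_one, Fin.isValue] at hi
    nlinarith

structure SP (lam ε T : ℝ) (b : Fin 2 → ℕ) : Prop where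
  h0 : 1 ≤ b 0
  h1 : 1 ≤ b 1
  cop : Nat.Coprime (b 0) (b 1)
  le : (b 1 : ℝ) ≤ b 0
  leN : b 1 ≤ b 0
  leT : (b 0 : ℝ) ≤ T
  reg : (b 0 : ℝ) ^ lam * b 1 ≤ T ^ (1 - ε)
  prod : (b 0 : ℝ) * b 1 ≤ T ^ (1 - ε)
  ratio : (b 0 : ℝ) / b 1 ≤ T ^ (1 / 2 - ε)
  l0 : Real.log (b 0) ≤ Real.log T
  l1 : Real.log (b 1) ≤ Real.log T

lemma Sset_prop {lam ε T : ℝ} (hlam : 1 ≤ lam) (hε : 0 < ε) (hT : 1 < T) {b : Fin 2 → ℕ}
    (hb : b ∈ Sset lam ε T) : SP lam ε T b := by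
  classical
  unfold Sset at hb
  rw [mem_filter, Fintype.mem_piFinset] at hb
  obtain ⟨hb1, hcop, hne⟩ := hb
  have hL : 0 < Real.log T := Real.log_pos hT
  have m0 := mem_Icc.mp (hb1 0)
  have m1 := mem_Icc.mp (hb1 1)
  have p0 : (0:ℝ) < b 0 := by exact_mod_cast m0.1
  have p1 : (0:ℝ) < b 1 := by exact_mod_cast m1.1
  have q0 : (1:ℝ) ≤ b 0 := by exact_mod_cast m0.1
  have q1 : (1:ℝ) ≤ b 1 := by exact_mod_cast m1.1
  obtain ⟨r1, r2, r3⟩ := eta_ne hε (phi_ne hne)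
  simp only [pos] at r1 r2 r3
  have e1 : lam * Real.log (b 0) + Real.log (b 1) < (1 - ε) * Real.log T := by
    have := mul_lt_mul_of_pos_right r1 hL
    field_simp at this
    linarith
  have e2 : Real.log (b 0) - Real.log (b 1) < (1 / 2 - ε) * Real.log T := by
    have := mul_lt_mul_of_pos_right r2 hL
    field_simp at this
    linarith
  have e3 : Real.log (b 1) - Real.log (b 0) < -ε * Real.log T := by
    have := mul_lt_mul_of_pos_right r3 hL
    field_simp at this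
    linarith
  have hT0 : 0 < T := by linarith
  have hle : (b 1 : ℝ) ≤ b 0 := by
    apply (Real.log_le_log_iff p1 p0).mp
    nlinarith
  have hreg : (b 0 : ℝ) ^ lam * b 1 ≤ T ^ (1 - ε) := by
    apply (Real.log_le_log_iff (by positivity) (by positivity)).mp
    rw [Real.log_mul (by positivity) (by positivity), Real.log_rpow p0, Real.log_rpow hT0]
    exact e1.le
  refine ⟨m0.1, m1.1, hcop, hle, by exact_mod_cast hle, ?_, hreg, ?_, ?_, ?_, ?_⟩
  · exact (Nat.le_floor_iff hT0.le).mp m0.2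
  · refine le_trans ?_ hreg
    have : (b 0 : ℝ) ≤ (b 0 : ℝ) ^ lam := by
      calc (b 0 : ℝ) = (b 0 : ℝ) ^ (1:ℝ) := (Real.rpow_one _).symm
        _ ≤ _ := Real.rpow_le_rpow_of_exponent_le q0 hlam
    exact mul_le_mul_of_nonneg_right this p1.le
  · apply (Real.log_le_log_iff (by positivity) (by positivity)).mp
    rw [Real.log_div (by positivity) (by positivity), Real.log_rpow hT0]
    exact e2.le
  · exact Real.log_le_log p0 ((Nat.le_floor_iff hT0.le).mp m0.2)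
  · exact Real.log_le_log p1 ((Nat.le_floor_iff hT0.le).mp m1.2)

/-- the admissible range of `k` -/
def kr (T : ℝ) (k : ℕ) : Prop := Real.log T ^ 2 ≤ k ∧ (k : ℝ) ≤ 4 * Real.log T ^ 2

lemma small_pow (ε : ℝ) (hε : 0 < ε) : ∀ᶠ T : ℝ in atTop, ∀ k : ℕ, kr T k →
    ((k / T) / (1 / (2 * T ^ (1 - ε)))) ^ (k + 1) ≤ T ^ (-5 : ℝ) := by
  have h1 : ∀ᶠ T : ℝ in atTop, 8 * Real.log T ^ 2 ≤ T ^ (ε / 2) := by
    have h := (isLittleO_log_rpow_atTop (r := ε / 4) (by positivity)).bound (c := 1 / 3) (by norm_num)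
    filter_upwards [h, eventually_gt_atTop 1] with T hT hT1
    have hL : 0 ≤ Real.log T := (Real.log_pos hT1).le
    rw [Real.norm_of_nonneg hL, Real.norm_of_nonneg (by positivity)] at hT
    have e : T ^ (ε / 2) = (T ^ (ε / 4)) ^ 2 := by
      rw [← Real.rpow_natCast, ← Real.rpow_mul (by linarith)]
      congr 1; push_cast; ring
    rw [e]
    have : (3 * Real.log T) ^ 2 ≤ (T ^ (ε / 4)) ^ 2 := by
      apply pow_le_pow_left₀ (by positivity); linarith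
    nlinarith
  have h2 : ∀ᶠ T : ℝ in atTop, 10 / ε ≤ Real.log T ^ 2 :=
    (tendsto_pow_atTop (by norm_num)).comp Real.tendsto_log_atTop |>.eventually_ge_atTop _
  filter_upwards [h1, h2, eventually_gt_atTop 1] with T hT1 hT2 hT k hk
  have hT0 : 0 < T := by linarith
  have e1 : ((k:ℝ) / T) / (1 / (2 * T ^ (1 - ε))) = 2 * k * T ^ (-ε) := by
    rw [show (1 - ε) = 1 + (-ε) by ring, Real.rpow_add hT0, Real.rpow_one]
    field_simp
  rw [e1]
  have e2 : 2 * (k:ℝ) * T ^ (-ε) ≤ T ^ (-(ε / 2)) := by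
    have : 2 * (k:ℝ) ≤ T ^ (ε / 2) := by linarith [hk.2]
    calc 2 * (k:ℝ) * T ^ (-ε) ≤ T ^ (ε / 2) * T ^ (-ε) :=
          mul_le_mul_of_nonneg_right this (by positivity)
      _ = T ^ (-(ε / 2)) := by rw [← Real.rpow_add hT0]; congr 1; ring
  calc (2 * (k:ℝ) * T ^ (-ε)) ^ (k + 1) ≤ (T ^ (-(ε / 2))) ^ (k + 1) :=
        pow_le_pow_left₀ (by positivity) e2 _
    _ = T ^ (-(ε / 2) * ((k + 1 : ℕ) : ℝ)) := by
        rw [← Real.rpow_natCast, ← Real.rpow_mul hT0.le]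
    _ ≤ T ^ (-5 : ℝ) := by
        apply Real.rpow_le_rpow_of_exponent_le hT.le
        have h3 : 10 / ε ≤ (k:ℝ) := hT2.trans hk.1
        rw [div_le_iff₀ hε] at h3
        push_cast
        nlinarith

lemma kr_pos {T : ℝ} (hT : Real.exp 1 < T) {k : ℕ} (hk : kr T k) : 1 ≤ k ∧ 0 < (k:ℝ) / T := by
  have h1 : 1 < Real.log T := by
    rw [Real.lt_log_iff_exp_lt (by linarith [Real.exp_pos 1])]; exact hT
  have h2 : (1:ℝ) < k := by nlinarith [hk.1]
  have hT0 : 0 < T := lt_trans (Real.exp_pos 1) hT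
  refine ⟨by exact_mod_cast h2.le, by positivity⟩

/-- the basic inequality with concrete data -/
theorem lower1 (lam ε : ℝ) (hlam : 1 ≤ lam) (hε : 0 < ε) (hε1 : ε < 1 / 4) :
    ∀ᶠ T : ℝ in atTop, ∀ k : ℕ, kr T k →
    4 * ∑ n ∈ Icc 1 ⌊T ^ (1 - ε)⌋₊, (d3 n / Real.sqrt n) *
      (∫ t in Set.Ioi (0:ℝ), (om k (k / T) t : ℂ) * riemannZeta (cl t) ^ 3 *
        ef (Real.log n) t).re +
    4 * ∑ b ∈ Sset lam ε T, cc lam ε T b * (∫ t in Set.Ioi (0:ℝ), (om k (k / T) t : ℂ) *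
        (riemannZeta (cl t) ^ 3 * Xf (cl t)) * ef (fr2 b) t).re -
    2 * Bs ε T - 2 * ∑ b ∈ Sset lam ε T, cc lam ε T b ^ 2 -
    4 * T ^ (-5 : ℝ) * ((∑ n ∈ Icc 1 ⌊T ^ (1 - ε)⌋₊, |d3 n / Real.sqrt n|) +
      ∑ b ∈ Sset lam ε T, |cc lam ε T b|) ^ 2 ≤
    ∫ t in Set.Ioi (0:ℝ), om k (k / T) t * ‖riemannZeta (cl t)‖ ^ 6 := by
  have o1 := osc ε hε (by linarith) 1 le_rfl (by norm_num)
  have o2 := osc ε hε (by linarith) 2 (by norm_num) (by norm_num)
  have o3 := osc ε hε (by linarith) 3 (by norm_num) le_rfl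
  filter_upwards [o1, o2, o3, small_pow ε hε, eventually_gt_atTop (Real.exp 1),
    eventually_gt_atTop 1] with T o1 o2 o3 hsp hTe hT k hk
  have hT0 : 0 < T := by linarith
  obtain ⟨hk1, hδ⟩ := kr_pos hTe hk
  have o1 := o1 k hk.1 hk.2
  have o2 := o2 k hk.1 hk.2
  have o3 := o3 k hk.1 hk.2
  have hsp := hsp k hk
  have hN : ∀ n ∈ Icc 1 ⌊T ^ (1 - ε)⌋₊, (0:ℝ) < n ∧ (n:ℝ) ≤ T ^ (1 - ε) := by
    intro n hn
    rw [mem_Icc] at hn
    exact ⟨by exact_mod_cast hn.1, (Nat.le_floor_iff (by positivity)).mp hn.2⟩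
  have hS : ∀ b ∈ Sset lam ε T, SP lam ε T b := fun b hb => Sset_prop hlam hε hT hb
  have hS0 : ∀ b ∈ Sset lam ε T, (0:ℝ) < b 0 ∧ (0:ℝ) < b 1 := fun b hb =>
    ⟨by exact_mod_cast (hS b hb).h0, by exact_mod_cast (hS b hb).h1⟩
  have hG : 0 < 1 / (2 * T ^ (1 - ε)) := by positivity
  refine int_lower k hδ (Icc 1 ⌊T ^ (1 - ε)⌋₊) (fun n => d3 n / Real.sqrt n) (fun n => Real.log n)
    (Sset lam ε T) (cc lam ε T) fr2 (T ^ (-5 : ℝ)) ?_ ?_ ?_ ?_ ?_ ?_
  · intro n hn b hb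
    obtain ⟨n0, n1⟩ := hN n hn
    obtain ⟨b0, b1⟩ := hS0 b hb
    have := o1 ((n:ℝ) / ((b 0 : ℝ) / b 1)) (by positivity) (by
      push_cast
      calc (n:ℝ) / ((b 0 : ℝ) / b 1) ≤ n / 1 := by
            apply div_le_div_of_nonneg_left n0.le one_pos
            rw [le_div_iff₀ b1]; linarith [(hS b hb).le]
        _ ≤ T ^ (1 - ε) := by rw [div_one]; exact n1)
    rw [Real.log_div (by positivity) (by positivity)] at this
    convert this using 5
    unfold fr2; ring_nf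
  · intro n hn m hm
    obtain ⟨n0, n1⟩ := hN n hn
    obtain ⟨m0, m1⟩ := hN m hm
    have := o3 ((n:ℝ) * m) (by positivity) (by
      push_cast
      calc (n:ℝ) * m ≤ T ^ (1 - ε) * T ^ (1 - ε) := mul_le_mul n1 m1 m0.le (by positivity)
        _ = T ^ (2 - 2 * ε) := by rw [← Real.rpow_add hT0]; congr 1; ring
        _ ≤ T ^ (3 - ε) := Real.rpow_le_rpow_of_exponent_le hT.le (by linarith))
    rw [Real.log_mul (by positivity) (by positivity)] at this
    convert this using 5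
    ring
  · intro n hn b hb
    obtain ⟨n0, n1⟩ := hN n hn
    obtain ⟨b0, b1⟩ := hS0 b hb
    have := o2 ((n:ℝ) * ((b 0 : ℝ) / b 1)) (by positivity) (by
      push_cast
      calc (n:ℝ) * ((b 0 : ℝ) / b 1) ≤ T ^ (1 - ε) * T ^ (1 / 2 - ε) :=
            mul_le_mul n1 (hS b hb).ratio (by positivity) (by positivity)
        _ = T ^ (3 / 2 - 2 * ε) := by rw [← Real.rpow_add hT0]; congr 1; ring
        _ ≤ T ^ (2 - ε) := Real.rpow_le_rpow_of_exponent_le hT.le (by linarith))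
    rw [Real.log_mul (by positivity) (by positivity)] at this
    convert this using 5
    unfold fr2; ring_nf
  · intro a ha b hb
    obtain ⟨a0, a1⟩ := hS0 a ha
    obtain ⟨b0, b1⟩ := hS0 b hb
    have := o1 (((a 0 : ℝ) / a 1) * ((b 0 : ℝ) / b 1)) (by positivity) (by
      push_cast
      calc ((a 0 : ℝ) / a 1) * ((b 0 : ℝ) / b 1) ≤ T ^ (1 / 2 - ε) * T ^ (1 / 2 - ε) :=
            mul_le_mul (hS a ha).ratio (hS b hb).ratio (by positivity) (by positivity)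
        _ = T ^ (1 - 2 * ε) := by rw [← Real.rpow_add hT0]; congr 1; ring
        _ ≤ T ^ (1 - ε) := Real.rpow_le_rpow_of_exponent_le hT.le (by linarith))
    rw [Real.log_mul (by positivity) (by positivity)] at this
    convert this using 5
    unfold fr2; ring_nf
  · have hsep : ∀ i ∈ Icc 1 ⌊T ^ (1 - ε)⌋₊, ∀ j ∈ Icc 1 ⌊T ^ (1 - ε)⌋₊, i ≠ j →
        1 / (2 * T ^ (1 - ε)) ≤ |Real.log (i:ℝ) - Real.log (j:ℝ)| := by
      intro i hi j hj hij
      have := rat_sep (T ^ (1 - ε)) i 1 j 1 (mem_Icc.mp hi).1 le_rfl (mem_Icc.mp hj).1 le_rfl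
        (Nat.coprime_one_right i) (Nat.coprime_one_right j) (by simpa using hij)
        (by simpa using (hN i hi).2) (by simpa using (hN j hj).2)
      simpa using this
    have h := norm_diag (Icc 1 ⌊T ^ (1 - ε)⌋₊) (fun n => ((d3 n / Real.sqrt n : ℝ) : ℂ))
      (fun n => Real.log n) (1 / (2 * T ^ (1 - ε))) hG hsep k (k / T) hδ
    have h' := (abs_le.mp h).2
    have hnn : 0 ≤ (∑ i ∈ Icc 1 ⌊T ^ (1 - ε)⌋₊, ‖((d3 i / Real.sqrt i : ℝ) : ℂ)‖) ^ 2 := by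
      positivity
    have h'' := mul_le_mul_of_nonneg_left hsp hnn
    simp only [Complex.norm_real, Real.norm_eq_abs, sq_abs] at h' h''
    unfold DP
    linarith
  · have hsep : ∀ a ∈ Sset lam ε T, ∀ b ∈ Sset lam ε T, a ≠ b →
        1 / (2 * T ^ (1 - ε)) ≤ |fr2 a - fr2 b| := by
      intro a ha b hb hab
      exact rat_sep (T ^ (1 - ε)) (a 0) (a 1) (b 0) (b 1) (hS a ha).h0 (hS a ha).h1 (hS b hb).h0
        (hS b hb).h1 (hS a ha).cop (hS b hb).cop (by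
          intro h
          apply hab
          rw [Prod.mk.injEq] at h
          funext i
          fin_cases i
          · exact h.1
          · exact h.2) (hS a ha).prod (hS b hb).prod
    have h := norm_diag (Sset lam ε T) (fun b => ((cc lam ε T b : ℝ) : ℂ))
      fr2 (1 / (2 * T ^ (1 - ε))) hG hsep k (k / T) hδ
    have h' := (abs_le.mp h).2
    have hnn : 0 ≤ (∑ b ∈ Sset lam ε T, ‖((cc lam ε T b : ℝ) : ℂ)‖) ^ 2 := by positivity
    have h'' := mul_le_mul_of_nonneg_left hsp hnn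
    simp only [Complex.norm_real, Real.norm_eq_abs, sq_abs] at h' h''
    unfold DP
    linarith

end

end Pool.Agent.H306R2.SM
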