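import Pool.Agent.H306R2.SM.Asm1

set_option autoImplicit false

/-! Assembly 2: the pointwise inequality and its integrated form. -/

namespace Pool.Agent.H306R2.SM

open Finset Filter Topology MeasureTheory Complex

noncomputable section

lemma two_re (w : ℂ) : ((2 * w.re : ℝ) : ℂ) = w + (starRingEnd ℂ) w := by
  rw [Complex.add_conj]

lemma norm_sq_c (w : ℂ) : ((‖w‖ ^ 2 : ℝ) : ℂ) = w * (starRingEnd ℂ) w := by
  rw [Complex.mul_conj, Complex.normSq_eq_norm_sq]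

lemma ptw (z x B C : ℂ) (hx : ‖x‖ = 1) (hz : x * z = (starRingEnd ℂ) z) :
    4 * (z ^ 3 * (starRingEnd ℂ) B).re + 4 * (z ^ 3 * x * (starRingEnd ℂ) C).re
      - 2 * ‖B‖ ^ 2 - 2 * ‖C‖ ^ 2 - 4 * (x * B * (starRingEnd ℂ) C).re
      - 2 * (x ^ 3 * B ^ 2).re - 4 * (x ^ 2 * B * C).re - 2 * (x * C ^ 2).re ≤ ‖z‖ ^ 6 := by
  set xb := (starRingEnd ℂ) x with hxb
  set Bb := (starRingEnd ℂ) B with hBb
  set Cb := (starRingEnd ℂ) C with hCb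
  have hx0 : x ≠ 0 := by
    intro h; rw [h] at hx; simp at hx
  have hxx : x * xb = 1 := by
    rw [hxb, Complex.mul_conj, Complex.normSq_eq_norm_sq, hx]; simp
  have hxi : xb = x⁻¹ := by
    exact eq_inv_of_mul_eq_one_right hxx
  set G : ℂ := B + xb * C + xb ^ 3 * (Bb + x * Cb) with hG
  have h0 : 0 ≤ ‖z ^ 3 - G‖ ^ 2 := by positivity
  have hGb : (starRingEnd ℂ) G = Bb + x * Cb + x ^ 3 * (B + xb * C) := by
    rw [hG]
    simp only [map_add, map_mul, map_pow, hxb, hBb, hCb, Complex.conj_conj]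
  have key : ‖z ^ 3 - G‖ ^ 2 = ‖z‖ ^ 6 - 2 * (2 * (z ^ 3 * Bb).re + 2 * (z ^ 3 * x * Cb).re)
      + 2 * (‖B‖ ^ 2 + ‖C‖ ^ 2 + 2 * (x * B * Cb).re)
      + (2 * (x ^ 3 * B ^ 2).re + 2 * (2 * (x ^ 2 * B * C).re) + 2 * (x * C ^ 2).re) := by
    apply Complex.ofReal_injective
    have e6 : ((‖z‖ ^ 6 : ℝ) : ℂ) = z ^ 3 * (x * z) ^ 3 := by
      have : ‖z‖ ^ 6 = ‖z ^ 3‖ ^ 2 := by rw [norm_pow]; ring
      rw [this, norm_sq_c, map_pow, ← hz]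
    rw [norm_sq_c, map_sub, map_pow, ← hz, hGb]
    simp only [Complex.ofReal_add, Complex.ofReal_sub, Complex.ofReal_mul]
    have t1 : ((2 : ℝ) : ℂ) * ((z ^ 3 * Bb).re : ℂ) = z ^ 3 * Bb + (x * z) ^ 3 * B := by
      rw [← Complex.ofReal_mul, two_re, map_mul, map_pow, ← hz, hBb, Complex.conj_conj]
    have t2 : ((2 : ℝ) : ℂ) * ((z ^ 3 * x * Cb).re : ℂ) = z ^ 3 * x * Cb + (x * z) ^ 3 * xb * C := by
      rw [← Complex.ofReal_mul, two_re, map_mul, map_mul, map_pow, ← hz, hCb, Complex.conj_conj]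
    have t3 : ((2 : ℝ) : ℂ) * ((x * B * Cb).re : ℂ) = x * B * Cb + xb * Bb * C := by
      rw [← Complex.ofReal_mul, two_re, map_mul, map_mul, hCb, Complex.conj_conj]
    have t4 : ((2 : ℝ) : ℂ) * ((x ^ 3 * B ^ 2).re : ℂ) = x ^ 3 * B ^ 2 + xb ^ 3 * Bb ^ 2 := by
      rw [← Complex.ofReal_mul, two_re, map_mul, map_pow, map_pow]
    have t5 : ((2 : ℝ) : ℂ) * ((x ^ 2 * B * C).re : ℂ) = x ^ 2 * B * C + xb ^ 2 * Bb * Cb := by
      rw [← Complex.ofReal_mul, two_re, map_mul, map_mul, map_pow]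
    have t6 : ((2 : ℝ) : ℂ) * ((x * C ^ 2).re : ℂ) = x * C ^ 2 + xb * Cb ^ 2 := by
      rw [← Complex.ofReal_mul, two_re, map_mul, map_pow]
    rw [e6, t1, t2, t3, t4, t5, t6, norm_sq_c, norm_sq_c, ← hBb, ← hCb, hG, hxi]
    push_cast
    field_simp
    ring
  rw [key] at h0
  linarith

variable {ι κ : Type*}

/-- Dirichlet polynomial with real coefficients -/
def DP (s : Finset ι) (b θ : ι → ℝ) (t : ℝ) : ℂ := ∑ i ∈ s, (b i : ℂ) * ef (-(θ i)) t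

lemma DP_PG (s : Finset ι) (b θ : ι → ℝ) : PG (DP s b θ) :=
  PG.sum s fun _ _ => (PG.const _).mul (PG.ef _)

lemma DP_conj (s : Finset ι) (b θ : ι → ℝ) (t : ℝ) :
    (starRingEnd ℂ) (DP s b θ t) = ∑ i ∈ s, (b i : ℂ) * ef (θ i) t := by
  unfold DP
  rw [map_sum]
  refine sum_congr rfl fun i _ => ?_
  rw [map_mul, Complex.conj_ofReal, ef_conj, neg_neg]

/-- linearity -/
lemma int_sum (k : ℕ) {δ : ℝ} (hδ : 0 < δ) {f : ℝ → ℂ} (hf : PG f) (s : Finset ι) (b θ : ι → ℝ) :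
    ∫ t in Set.Ioi (0:ℝ), (om k δ t : ℂ) * (f t * ∑ i ∈ s, (b i : ℂ) * ef (θ i) t) =
      ∑ i ∈ s, (b i : ℂ) * ∫ t in Set.Ioi (0:ℝ), (om k δ t : ℂ) * f t * ef (θ i) t := by
  have h1 : ∀ i ∈ s, IntegrableOn (fun t : ℝ => (b i : ℂ) * ((om k δ t : ℂ) * f t * ef (θ i) t))
      (Set.Ioi 0) := by
    intro i _
    have := ((hf.mul (PG.ef (θ i))).int k hδ).const_mul (b i : ℂ)
    refine this.congr (Eventually.of_forall fun t => ?_)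
    simp only; ring
  simp only [← integral_const_mul]
  rw [← integral_finsetSum _ h1]
  refine integral_congr_ae (Eventually.of_forall fun t => ?_)
  simp only [mul_sum]
  refine sum_congr rfl fun i _ => ?_
  ring

lemma int_DP_conj (k : ℕ) {δ : ℝ} (hδ : 0 < δ) {f : ℝ → ℂ} (hf : PG f) (s : Finset ι) (b θ : ι → ℝ) :
    ∫ t in Set.Ioi (0:ℝ), (om k δ t : ℂ) * (f t * (starRingEnd ℂ) (DP s b θ t)) =
      ∑ i ∈ s, (b i : ℂ) * ∫ t in Set.Ioi (0:ℝ), (om k δ t : ℂ) * f t * ef (θ i) t := by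
  simp only [DP_conj]
  exact int_sum k hδ hf s b θ

lemma int_DP (k : ℕ) {δ : ℝ} (hδ : 0 < δ) {f : ℝ → ℂ} (hf : PG f) (s : Finset ι) (b θ : ι → ℝ) :
    ∫ t in Set.Ioi (0:ℝ), (om k δ t : ℂ) * (f t * DP s b θ t) =
      ∑ i ∈ s, (b i : ℂ) * ∫ t in Set.Ioi (0:ℝ), (om k δ t : ℂ) * f t * ef (-(θ i)) t := by
  unfold DP
  exact int_sum k hδ hf s b (fun i => -(θ i))

/-- small bilinear terms -/
lemma bilin {ι κ : Type*} (k : ℕ) {δ : ℝ} (hδ : 0 < δ) {f : ℝ → ℂ} (hf : PG f)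
    (s : Finset ι) (b θ : ι → ℝ) (S : Finset κ) (c φ : κ → ℝ) (e : ℝ)
    (h : ∀ i ∈ s, ∀ j ∈ S, ‖∫ t in Set.Ioi (0:ℝ), (om k δ t : ℂ) * f t * ef (-(θ i) + φ j) t‖ ≤ e) :
    ‖∫ t in Set.Ioi (0:ℝ), (om k δ t : ℂ) * (f t * DP s b θ t * ∑ j ∈ S, (c j : ℂ) * ef (φ j) t)‖ ≤
      e * (∑ i ∈ s, |b i|) * ∑ j ∈ S, |c j| := by
  rw [int_sum k hδ (hf.mul (DP_PG s b θ)) S c φ]
  refine (norm_sum_le _ _).trans ?_
  rw [mul_sum]
  refine sum_le_sum fun j hj => ?_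
  rw [norm_mul, Complex.norm_real, Real.norm_eq_abs, mul_comm]
  refine mul_le_mul_of_nonneg_right ?_ (abs_nonneg _)
  have h1 : ∫ t in Set.Ioi (0:ℝ), (om k δ t : ℂ) * (f t * DP s b θ t) * ef (φ j) t =
      ∫ t in Set.Ioi (0:ℝ), (om k δ t : ℂ) * ((f t * ef (φ j) t) * DP s b θ t) := by
    refine integral_congr_ae (Eventually.of_forall fun t => ?_)
    simp only; ring
  rw [h1, int_DP k hδ (hf.mul (PG.ef _)) s b θ]
  refine (norm_sum_le _ _).trans ?_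
  rw [mul_sum]
  refine sum_le_sum fun i hi => ?_
  rw [norm_mul, Complex.norm_real, Real.norm_eq_abs, mul_comm]
  refine mul_le_mul_of_nonneg_right ?_ (abs_nonneg _)
  have h2 : ∫ t in Set.Ioi (0:ℝ), (om k δ t : ℂ) * (f t * ef (φ j) t) * ef (-(θ i)) t =
      ∫ t in Set.Ioi (0:ℝ), (om k δ t : ℂ) * f t * ef (-(θ i) + φ j) t := by
    refine integral_congr_ae (Eventually.of_forall fun t => ?_)
    simp only
    rw [← ef_mul]; ring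
  rw [h2]
  exact h i hi j hj

lemma PGre {f : ℝ → ℂ} (hf : PG f) (k : ℕ) {δ : ℝ} (hδ : 0 < δ) :
    IntegrableOn (fun t : ℝ => om k δ t * (f t).re) (Set.Ioi 0) := by
  refine ((hf.int k hδ).re).congr (Eventually.of_forall fun t => ?_)
  simp

lemma PGnsq {f : ℝ → ℂ} (hf : PG f) (k : ℕ) {δ : ℝ} (hδ : 0 < δ) :
    IntegrableOn (fun t : ℝ => om k δ t * ‖f t‖ ^ 2) (Set.Ioi 0) := by
  refine (PGre (hf.mul hf.conj) k hδ).congr (Eventually.of_forall fun t => ?_)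
  simp only
  rw [← norm_sq_c, Complex.ofReal_re]

lemma int_re {f : ℝ → ℂ} (hf : PG f) (k : ℕ) {δ : ℝ} (hδ : 0 < δ) :
    ∫ t in Set.Ioi (0:ℝ), om k δ t * (f t).re =
      (∫ t in Set.Ioi (0:ℝ), (om k δ t : ℂ) * f t).re := by
  have := integral_re (hf.int k hδ)
  simp only [RCLike.re_to_complex] at this
  rw [← this]
  refine integral_congr_ae (Eventually.of_forall fun t => ?_)
  simp

lemma int_re_le {f : ℝ → ℂ} (hf : PG f) (k : ℕ) {δ : ℝ} (hδ : 0 < δ) (e : ℝ)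
    (h : ‖∫ t in Set.Ioi (0:ℝ), (om k δ t : ℂ) * f t‖ ≤ e) :
    ∫ t in Set.Ioi (0:ℝ), om k δ t * (f t).re ≤ e := by
  rw [int_re hf k hδ]
  exact (Complex.re_le_norm _).trans h

lemma int8 {μ : Measure ℝ} {f1 f2 f3 f4 f5 f6 f7 f8 : ℝ → ℝ} (h1 : Integrable f1 μ)
    (h2 : Integrable f2 μ) (h3 : Integrable f3 μ) (h4 : Integrable f4 μ) (h5 : Integrable f5 μ)
    (h6 : Integrable f6 μ) (h7 : Integrable f7 μ) (h8 : Integrable f8 μ) :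
    ∫ x, (f1 x + f2 x - f3 x - f4 x - f5 x - f6 x - f7 x - f8 x) ∂μ =
      (∫ x, f1 x ∂μ) + (∫ x, f2 x ∂μ) - (∫ x, f3 x ∂μ) - (∫ x, f4 x ∂μ) - (∫ x, f5 x ∂μ)
        - (∫ x, f6 x ∂μ) - (∫ x, f7 x ∂μ) - (∫ x, f8 x ∂μ) := by
  have a2 : Integrable (fun x => f1 x + f2 x) μ := h1.add h2
  have a3 : Integrable (fun x => f1 x + f2 x - f3 x) μ := a2.sub h3
  have a4 : Integrable (fun x => f1 x + f2 x - f3 x - f4 x) μ := a3.sub h4
  have a5 : Integrable (fun x => f1 x + f2 x - f3 x - f4 x - f5 x) μ := a4.sub h5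
  have a6 : Integrable (fun x => f1 x + f2 x - f3 x - f4 x - f5 x - f6 x) μ := a5.sub h6
  have a7 : Integrable (fun x => f1 x + f2 x - f3 x - f4 x - f5 x - f6 x - f7 x) μ := a6.sub h7
  rw [integral_sub a7 h8, integral_sub a6 h7, integral_sub a5 h6, integral_sub a4 h5,
    integral_sub a3 h4, integral_sub a2 h3, integral_add h1 h2]

theorem int_lower {ι κ : Type*} (k : ℕ) {δ : ℝ} (hδ : 0 < δ)
    (s : Finset ι) (b θ : ι → ℝ) (S : Finset κ) (c φ : κ → ℝ) (e : ℝ)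
    (hU : ∀ i ∈ s, ∀ j ∈ S,
      ‖∫ t in Set.Ioi (0:ℝ), (om k δ t : ℂ) * Xf (cl t) ^ 1 * ef (-(θ i) + φ j) t‖ ≤ e)
    (h3 : ∀ i ∈ s, ∀ j ∈ s,
      ‖∫ t in Set.Ioi (0:ℝ), (om k δ t : ℂ) * Xf (cl t) ^ 3 * ef (-(θ i) + -(θ j)) t‖ ≤ e)
    (h2 : ∀ i ∈ s, ∀ j ∈ S,
      ‖∫ t in Set.Ioi (0:ℝ), (om k δ t : ℂ) * Xf (cl t) ^ 2 * ef (-(θ i) + -(φ j)) t‖ ≤ e)
    (h1 : ∀ i ∈ S, ∀ j ∈ S,
      ‖∫ t in Set.Ioi (0:ℝ), (om k δ t : ℂ) * Xf (cl t) ^ 1 * ef (-(φ i) + -(φ j)) t‖ ≤ e)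
    (hB : ∫ t in Set.Ioi (0:ℝ), om k δ t * ‖DP s b θ t‖ ^ 2 ≤
      ∑ i ∈ s, b i ^ 2 + e * (∑ i ∈ s, |b i|) ^ 2)
    (hC : ∫ t in Set.Ioi (0:ℝ), om k δ t * ‖DP S c φ t‖ ^ 2 ≤
      ∑ i ∈ S, c i ^ 2 + e * (∑ i ∈ S, |c i|) ^ 2) :
    4 * ∑ i ∈ s, b i * (∫ t in Set.Ioi (0:ℝ), (om k δ t : ℂ) * riemannZeta (cl t) ^ 3 *
        ef (θ i) t).re +
    4 * ∑ j ∈ S, c j * (∫ t in Set.Ioi (0:ℝ), (om k δ t : ℂ) *
        (riemannZeta (cl t) ^ 3 * Xf (cl t)) * ef (φ j) t).re -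
    2 * ∑ i ∈ s, b i ^ 2 - 2 * ∑ j ∈ S, c j ^ 2 -
    4 * e * ((∑ i ∈ s, |b i|) + ∑ j ∈ S, |c j|) ^ 2 ≤
    ∫ t in Set.Ioi (0:ℝ), om k δ t * ‖riemannZeta (cl t)‖ ^ 6 := by
  set B := DP s b θ with hBdef
  set C := DP S c φ with hCdef
  have pB : PG B := DP_PG s b θ
  have pC : PG C := DP_PG S c φ
  have pz3 : PG (fun t => riemannZeta (cl t) ^ 3) := PG.zeta.pow 3
  have p1 : PG (fun t => riemannZeta (cl t) ^ 3 * (starRingEnd ℂ) (B t)) := pz3.mul pB.conj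
  have p2 : PG (fun t => (riemannZeta (cl t) ^ 3 * Xf (cl t)) * (starRingEnd ℂ) (C t)) :=
    (pz3.mul PG.X).mul pC.conj
  have p3 : PG (fun t => Xf (cl t) ^ 1 * B t * (starRingEnd ℂ) (C t)) :=
    ((PG.X.pow 1).mul pB).mul pC.conj
  have p4 : PG (fun t => Xf (cl t) ^ 3 * B t * B t) := ((PG.X.pow 3).mul pB).mul pB
  have p5 : PG (fun t => Xf (cl t) ^ 2 * B t * C t) := ((PG.X.pow 2).mul pB).mul pC
  have p6 : PG (fun t => Xf (cl t) ^ 1 * C t * C t) := ((PG.X.pow 1).mul pC).mul pC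
  have hpt : ∀ t : ℝ, 4 * (riemannZeta (cl t) ^ 3 * (starRingEnd ℂ) (B t)).re
      + 4 * ((riemannZeta (cl t) ^ 3 * Xf (cl t)) * (starRingEnd ℂ) (C t)).re
      - 2 * ‖B t‖ ^ 2 - 2 * ‖C t‖ ^ 2 - 4 * (Xf (cl t) ^ 1 * B t * (starRingEnd ℂ) (C t)).re
      - 2 * (Xf (cl t) ^ 3 * B t * B t).re - 4 * (Xf (cl t) ^ 2 * B t * C t).re
      - 2 * (Xf (cl t) ^ 1 * C t * C t).re ≤ ‖riemannZeta (cl t)‖ ^ 6 := by
    intro t
    have := ptw (riemannZeta (cl t)) (Xf (cl t)) (B t) (C t) (Xf_line t) (Xf_fe t)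
    have e1 : Xf (cl t) ^ 3 * B t * B t = Xf (cl t) ^ 3 * B t ^ 2 := by ring
    have e2 : Xf (cl t) ^ 1 * C t * C t = Xf (cl t) * C t ^ 2 := by ring
    rw [e1, e2, pow_one]
    exact this
  have i6 : IntegrableOn (fun t => om k δ t * ‖riemannZeta (cl t)‖ ^ 6) (Set.Ioi 0) := by
    refine (PGnsq pz3 k hδ).congr (Eventually.of_forall fun t => ?_)
    simp only [norm_pow]; ring
  have iL : IntegrableOn (fun t => om k δ t *
      (4 * (riemannZeta (cl t) ^ 3 * (starRingEnd ℂ) (B t)).re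
      + 4 * ((riemannZeta (cl t) ^ 3 * Xf (cl t)) * (starRingEnd ℂ) (C t)).re
      - 2 * ‖B t‖ ^ 2 - 2 * ‖C t‖ ^ 2 - 4 * (Xf (cl t) ^ 1 * B t * (starRingEnd ℂ) (C t)).re
      - 2 * (Xf (cl t) ^ 3 * B t * B t).re - 4 * (Xf (cl t) ^ 2 * B t * C t).re
      - 2 * (Xf (cl t) ^ 1 * C t * C t).re)) (Set.Ioi 0) := by
    have := ((((((((PGre p1 k hδ).const_mul 4).add ((PGre p2 k hδ).const_mul 4)).sub
      ((PGnsq pB k hδ).const_mul 2)).sub ((PGnsq pC k hδ).const_mul 2)).sub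
      ((PGre p3 k hδ).const_mul 4)).sub ((PGre p4 k hδ).const_mul 2)).sub
      ((PGre p5 k hδ).const_mul 4)).sub ((PGre p6 k hδ).const_mul 2)
    refine this.congr (Eventually.of_forall fun t => ?_)
    simp only [Pi.add_apply, Pi.sub_apply]
    ring
  have hmono : ∫ t in Set.Ioi (0:ℝ), om k δ t *
      (4 * (riemannZeta (cl t) ^ 3 * (starRingEnd ℂ) (B t)).re
      + 4 * ((riemannZeta (cl t) ^ 3 * Xf (cl t)) * (starRingEnd ℂ) (C t)).re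
      - 2 * ‖B t‖ ^ 2 - 2 * ‖C t‖ ^ 2 - 4 * (Xf (cl t) ^ 1 * B t * (starRingEnd ℂ) (C t)).re
      - 2 * (Xf (cl t) ^ 3 * B t * B t).re - 4 * (Xf (cl t) ^ 2 * B t * C t).re
      - 2 * (Xf (cl t) ^ 1 * C t * C t).re) ≤
      ∫ t in Set.Ioi (0:ℝ), om k δ t * ‖riemannZeta (cl t)‖ ^ 6 := by
    refine setIntegral_mono_on iL i6 measurableSet_Ioi fun t ht => ?_
    exact mul_le_mul_of_nonneg_left (hpt t) (om_nonneg k hδ (le_of_lt ht))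
  refine le_trans ?_ hmono
  have hsplit : ∫ t in Set.Ioi (0:ℝ), om k δ t *
      (4 * (riemannZeta (cl t) ^ 3 * (starRingEnd ℂ) (B t)).re
      + 4 * ((riemannZeta (cl t) ^ 3 * Xf (cl t)) * (starRingEnd ℂ) (C t)).re
      - 2 * ‖B t‖ ^ 2 - 2 * ‖C t‖ ^ 2 - 4 * (Xf (cl t) ^ 1 * B t * (starRingEnd ℂ) (C t)).re
      - 2 * (Xf (cl t) ^ 3 * B t * B t).re - 4 * (Xf (cl t) ^ 2 * B t * C t).re
      - 2 * (Xf (cl t) ^ 1 * C t * C t).re) =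
      4 * (∫ t in Set.Ioi (0:ℝ), om k δ t * (riemannZeta (cl t) ^ 3 * (starRingEnd ℂ) (B t)).re)
      + 4 * (∫ t in Set.Ioi (0:ℝ), om k δ t *
          ((riemannZeta (cl t) ^ 3 * Xf (cl t)) * (starRingEnd ℂ) (C t)).re)
      - 2 * (∫ t in Set.Ioi (0:ℝ), om k δ t * ‖B t‖ ^ 2)
      - 2 * (∫ t in Set.Ioi (0:ℝ), om k δ t * ‖C t‖ ^ 2)
      - 4 * (∫ t in Set.Ioi (0:ℝ), om k δ t * (Xf (cl t) ^ 1 * B t * (starRingEnd ℂ) (C t)).re)
      - 2 * (∫ t in Set.Ioi (0:ℝ), om k δ t * (Xf (cl t) ^ 3 * B t * B t).re)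
      - 4 * (∫ t in Set.Ioi (0:ℝ), om k δ t * (Xf (cl t) ^ 2 * B t * C t).re)
      - 2 * (∫ t in Set.Ioi (0:ℝ), om k δ t * (Xf (cl t) ^ 1 * C t * C t).re) := by
    have q1 := (PGre p1 k hδ).const_mul 4
    have q2 := (PGre p2 k hδ).const_mul 4
    have q3 := (PGnsq pB k hδ).const_mul 2
    have q4 := (PGnsq pC k hδ).const_mul 2
    have q5 := (PGre p3 k hδ).const_mul 4
    have q6 := (PGre p4 k hδ).const_mul 2
    have q7 := (PGre p5 k hδ).const_mul 4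
    have q8 := (PGre p6 k hδ).const_mul 2
    have := int8 q1 q2 q3 q4 q5 q6 q7 q8
    simp only [integral_const_mul] at this
    rw [← this]
    refine integral_congr_ae (Eventually.of_forall fun t => ?_)
    simp only
    ring
  rw [hsplit]
  have hBs : ∀ t, B t = ∑ j ∈ s, (b j : ℂ) * ef (-(θ j)) t := fun t => rfl
  have hCs : ∀ t, C t = ∑ j ∈ S, (c j : ℂ) * ef (-(φ j)) t := fun t => rfl
  have r1 : ∫ t in Set.Ioi (0:ℝ), om k δ t * (riemannZeta (cl t) ^ 3 * (starRingEnd ℂ) (B t)).re =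
      ∑ i ∈ s, b i * (∫ t in Set.Ioi (0:ℝ), (om k δ t : ℂ) * riemannZeta (cl t) ^ 3 *
        ef (θ i) t).re := by
    rw [int_re p1 k hδ, int_DP_conj k hδ pz3 s b θ, Complex.re_sum]
    refine sum_congr rfl fun i _ => ?_
    rw [Complex.re_ofReal_mul]
  have r2 : ∫ t in Set.Ioi (0:ℝ), om k δ t *
      ((riemannZeta (cl t) ^ 3 * Xf (cl t)) * (starRingEnd ℂ) (C t)).re =
      ∑ j ∈ S, c j * (∫ t in Set.Ioi (0:ℝ), (om k δ t : ℂ) *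
        (riemannZeta (cl t) ^ 3 * Xf (cl t)) * ef (φ j) t).re := by
    rw [int_re p2 k hδ, int_DP_conj k hδ (pz3.mul PG.X) S c φ, Complex.re_sum]
    refine sum_congr rfl fun i _ => ?_
    rw [Complex.re_ofReal_mul]
  have r3 := int_re_le p3 k hδ (e * (∑ i ∈ s, |b i|) * ∑ j ∈ S, |c j|) (by
    simp only [hCdef, DP_conj]
    exact bilin k hδ (PG.X.pow 1) s b θ S c φ e hU)
  have r4 := int_re_le p4 k hδ (e * (∑ i ∈ s, |b i|) * ∑ j ∈ s, |b j|) (by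
    have := bilin k hδ (PG.X.pow 3) s b θ s b (fun j => -(θ j)) e h3
    simpa only [← hBs] using this)
  have r5 := int_re_le p5 k hδ (e * (∑ i ∈ s, |b i|) * ∑ j ∈ S, |c j|) (by
    have := bilin k hδ (PG.X.pow 2) s b θ S c (fun j => -(φ j)) e h2
    simpa only [← hCs] using this)
  have r6 := int_re_le p6 k hδ (e * (∑ i ∈ S, |c i|) * ∑ j ∈ S, |c j|) (by
    have := bilin k hδ (PG.X.pow 1) S c φ S c (fun j => -(φ j)) e h1
    simpa only [← hCs] using this)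
  rw [r1, r2]
  nlinarith [r3, r4, r5, r6, hB, hC]

end

end Pool.Agent.H306R2.SM
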