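import Pool.Agent.H306R2.SM.Asm5

set_option autoImplicit false

/-! Assembly 6: the twisted third moment with the factor `X`. -/

namespace Pool.Agent.H306R2.SM

open Finset Filter Topology MeasureTheory Complex

noncomputable section

lemma om_mass (k : ℕ) {δ : ℝ} (hδ : 0 < δ) : ∫ t in Set.Ioi (0:ℝ), om k δ t = 1 := by
  have h := Real.integral_rpow_mul_exp_neg_mul_Ioi (a := (k:ℝ) + 1) (r := δ) (by positivity) hδ
  have h1 : ∀ t ∈ Set.Ioi (0:ℝ), om k δ t = δ ^ (k + 1) / (k.factorial : ℝ) *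
      (t ^ ((k:ℝ) + 1 - 1) * Real.exp (-(δ * t))) := by
    intro t ht
    rw [add_sub_cancel_right, Real.rpow_natCast]
    unfold om
    ring
  rw [setIntegral_congr_fun measurableSet_Ioi h1, integral_const_mul, h,
    Real.Gamma_nat_eq_factorial, show ((k:ℝ) + 1) = ((k + 1 : ℕ) : ℝ) by push_cast; ring,
    Real.rpow_natCast, one_div, inv_pow]
  have := Nat.factorial_pos k
  have h2 : (0:ℝ) < (k.factorial : ℝ) := by exact_mod_cast this
  field_simp

lemma Gf_cont (k : ℕ) {δ : ℝ} (hδ : 0 < δ) : Continuous (fun t : ℝ => Gf k δ (cl t)) := by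
  unfold Gf
  have hcl : Continuous cl := by unfold cl; fun_prop
  refine Continuous.mul (Continuous.mul continuous_const ?_) ?_
  · rw [continuous_iff_continuousAt]
    intro t
    have h1 : DifferentiableAt ℂ Complex.Gamma (cl t + k) := by
      apply Complex.differentiableAt_Gamma
      intro m h
      have := congrArg Complex.re h
      simp [cl] at this
      have hk : (0:ℝ) ≤ k := Nat.cast_nonneg k
      have hm : (0:ℝ) ≤ m := Nat.cast_nonneg m
      linarith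
    exact ContinuousAt.comp (f := fun t : ℝ => cl t + (k:ℂ)) h1.continuousAt
      (hcl.add continuous_const).continuousAt
  · refine Continuous.const_cpow (by fun_prop) (Or.inl ?_)
    intro h
    have h2 := congrArg Complex.re h
    have h3 : (2 * (Real.pi : ℂ) * Complex.I + 2 * (Real.pi : ℂ) * (δ : ℂ)).re =
        2 * Real.pi * δ := by simp
    rw [h3, Complex.zero_re] at h2
    have : 0 < 2 * Real.pi * δ := by positivity
    linarith

lemma tail_int : IntegrableOn (fun t : ℝ => (1 + t) ^ (-14 : ℝ)) (Set.Ioi 0) ∧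
    ∫ t in Set.Ioi (0:ℝ), (1 + t) ^ (-14 : ℝ) ≤ 1 := by
  have h1 : IntegrableOn (fun t : ℝ => t ^ (-14 : ℝ)) (Set.Ioi 1) :=
    integrableOn_Ioi_rpow_of_lt (by norm_num) one_pos
  have h2 : (fun t : ℝ => (1 + t) ^ (-14 : ℝ)) = fun t => (fun x : ℝ => x ^ (-14 : ℝ)) (t + 1) := by
    funext t; rw [add_comm]
  have hpre : Set.Ioi (0:ℝ) = (fun t : ℝ => t + 1) ⁻¹' (Set.Ioi 1) := by
    ext t; simp
  constructor
  · rw [h2, hpre]
    exact (MeasurePreserving.integrableOn_comp_preimage (measurePreserving_add_right volume (1:ℝ))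
      (measurableEmbedding_addRight 1)).mpr h1
  · rw [h2, hpre, (measurePreserving_add_right volume (1:ℝ)).setIntegral_preimage_emb
      (measurableEmbedding_addRight 1) (fun x : ℝ => x ^ (-14 : ℝ)) (Set.Ioi 1),
      integral_Ioi_rpow_of_lt (by norm_num) one_pos]
    norm_num

lemma z3_bound {t : ℝ} (ht : 0 ≤ t) : ‖riemannZeta (cl t) ^ 3‖ ≤ 13824 * (1 + t) ^ 6 := by
  rw [norm_pow]
  calc ‖riemannZeta (cl t)‖ ^ 3 ≤ (24 * (1 + t) ^ 2) ^ 3 :=
        pow_le_pow_left₀ (norm_nonneg _) (zeta_cl_bound t ht) 3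
    _ = _ := by ring

theorem lemA (lam ε : ℝ) (hlam : 1 ≤ lam) (hε : 0 < ε) :
    ∀ᶠ T : ℝ in atTop, ∀ k : ℕ, kr T k → ∀ b ∈ Sset lam ε T,
    ‖(∫ t in Set.Ioi (0:ℝ), (om k (k / T) t : ℂ) * (riemannZeta (cl t) ^ 3 * Xf (cl t)) *
        ef (fr2 b) t) - (Real.sqrt ((b 1 : ℝ) / b 0) : ℂ) * (SS k (b 0) (b 1) (Yf k T) /
            (((k.factorial : ℝ) * Yf k T ^ (k + 1) : ℝ) : ℂ))‖ ≤
      T ^ (-(3 / 4) : ℝ) * ((1 + ∫ t in Set.Ioi (0:ℝ), om k (k / T) t *
        ‖riemannZeta (cl t)‖ ^ 6) / 2) + T ^ (-5 : ℝ) := by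
  filter_upwards [Gf_approx, twist_main, eventually_gt_atTop (Real.exp 1),
    eventually_gt_atTop 13825] with T ha hm hTe hT k hk b hb
  have hT1 : 1 < T := by linarith
  have hT0 : 0 < T := by linarith
  obtain ⟨hk1, hδ⟩ := kr_pos hTe hk
  have ha := ha k hk.1 hk.2
  have hp := Sset_prop hlam hε hT1 hb
  have hm := hm k hk.1 hk.2 (b 0) (b 1) hp.h1 hp.leN hp.leT
  set δ : ℝ := k / T with hδdef
  set φ := fr2 b with hφ
  have hφ' : Real.log ((b 0 : ℝ) / b 1) = φ := rfl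
  rw [hφ'] at hm
  -- functions
  have pz3 : PG (fun t => riemannZeta (cl t) ^ 3) := PG.zeta.pow 3
  have i0 : IntegrableOn (fun t : ℝ => (om k δ t : ℂ) * (riemannZeta (cl t) ^ 3 * Xf (cl t) *
      ef φ t)) (Set.Ioi 0) := ((pz3.mul PG.X).mul (PG.ef φ)).int k hδ
  have i1 : IntegrableOn (fun t : ℝ => (om k δ t : ℂ) * (riemannZeta (cl t) ^ 3 * Xf (cl t)) *
      ef φ t) (Set.Ioi 0) := by
    refine i0.congr (Eventually.of_forall fun t => ?_)
    simp only; ring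
  have hcz : Continuous (fun t => riemannZeta (cl t)) := PG.zeta.1
  -- the difference
  set D : ℝ → ℂ := fun t => riemannZeta (cl t) ^ 3 * ((om k δ t : ℂ) * Xf (cl t) - Gf k δ (cl t)) *
    ef φ t with hD
  have hDc : Continuous D := by
    refine ((hcz.pow 3).mul ?_).mul (ef_cont φ)
    exact ((continuous_ofReal.comp (om_cont k δ)).mul Xf_continuous).sub (Gf_cont k hδ)
  set g : ℝ → ℝ := fun t => T ^ (-(3 / 4) : ℝ) * ((om k δ t + om k δ t *
    ‖riemannZeta (cl t)‖ ^ 6) / 2) + T ^ (-20 : ℝ) * (13824 * (1 + t) ^ (-14 : ℝ)) with hg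
  have i6 : IntegrableOn (fun t => om k δ t * ‖riemannZeta (cl t)‖ ^ 6) (Set.Ioi 0) := by
    refine (PGnsq pz3 k hδ).congr (Eventually.of_forall fun t => ?_)
    simp only [norm_pow]; ring
  have iom : IntegrableOn (om k δ) (Set.Ioi 0) := by
    have := om_poly k 0 hδ
    simpa using this
  have ig : IntegrableOn g (Set.Ioi 0) := by
    refine Integrable.add ?_ ?_
    · exact ((iom.add i6).div_const 2).const_mul _
    · exact (tail_int.1.const_mul _).const_mul _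
  have hDg : ∀ t ∈ Set.Ioi (0:ℝ), ‖D t‖ ≤ g t := by
    intro t ht
    have ht0 : (0:ℝ) < t := ht
    have h1 := ha t ht0
    have hn := om_nonneg k hδ ht0.le
    simp only [hD, hg]
    rw [norm_mul, norm_mul, ef_norm, mul_one]
    have hz := z3_bound ht0.le
    have hz2 : ‖riemannZeta (cl t) ^ 3‖ ≤ (1 + ‖riemannZeta (cl t)‖ ^ 6) / 2 := by
      rw [norm_pow]
      nlinarith [sq_nonneg (‖riemannZeta (cl t)‖ ^ 3 - 1)]
    have e14 : (1 + t) ^ 6 * (1 + t) ^ (-20 : ℝ) = (1 + t) ^ (-14 : ℝ) := by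
      rw [← Real.rpow_natCast, ← Real.rpow_add (by linarith)]
      norm_num
    calc ‖riemannZeta (cl t) ^ 3‖ * ‖(om k δ t : ℂ) * Xf (cl t) - Gf k δ (cl t)‖
        ≤ ‖riemannZeta (cl t) ^ 3‖ * (T ^ (-(3 / 4) : ℝ) * om k δ t +
            T ^ (-20 : ℝ) * (1 + t) ^ (-20 : ℝ)) := mul_le_mul_of_nonneg_left h1 (norm_nonneg _)
      _ = T ^ (-(3 / 4) : ℝ) * (om k δ t * ‖riemannZeta (cl t) ^ 3‖) +
            T ^ (-20 : ℝ) * (‖riemannZeta (cl t) ^ 3‖ * (1 + t) ^ (-20 : ℝ)) := by ring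
      _ ≤ T ^ (-(3 / 4) : ℝ) * (om k δ t * ((1 + ‖riemannZeta (cl t)‖ ^ 6) / 2)) +
            T ^ (-20 : ℝ) * ((13824 * (1 + t) ^ 6) * (1 + t) ^ (-20 : ℝ)) := by
          gcongr
      _ = _ := by
          rw [mul_assoc (13824:ℝ), e14]; ring
  have iD : IntegrableOn D (Set.Ioi 0) :=
    Integrable.mono' ig hDc.aestronglyMeasurable
      ((ae_restrict_iff' measurableSet_Ioi).mpr (Eventually.of_forall hDg))
  have hDn : ‖∫ t in Set.Ioi (0:ℝ), D t‖ ≤ ∫ t in Set.Ioi (0:ℝ), g t := by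
    refine norm_integral_le_of_norm_le ig ?_
    exact (ae_restrict_iff' measurableSet_Ioi).mpr (Eventually.of_forall hDg)
  have hgI : ∫ t in Set.Ioi (0:ℝ), g t ≤ T ^ (-(3 / 4) : ℝ) *
      ((1 + ∫ t in Set.Ioi (0:ℝ), om k δ t * ‖riemannZeta (cl t)‖ ^ 6) / 2) +
      T ^ (-20 : ℝ) * 13824 := by
    have q1 : IntegrableOn (fun t : ℝ => T ^ (-(3 / 4) : ℝ) * ((om k δ t + om k δ t *
        ‖riemannZeta (cl t)‖ ^ 6) / 2)) (Set.Ioi 0) := ((iom.add i6).div_const 2).const_mul _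
    have q2 : IntegrableOn (fun t : ℝ => T ^ (-20 : ℝ) * (13824 * (1 + t) ^ (-14 : ℝ)))
        (Set.Ioi 0) := (tail_int.1.const_mul _).const_mul _
    simp only [hg]
    rw [integral_add q1 q2, integral_const_mul, integral_const_mul, integral_const_mul]
    have e1 : ∫ t in Set.Ioi (0:ℝ), (om k δ t + om k δ t * ‖riemannZeta (cl t)‖ ^ 6) / 2 =
        (1 + ∫ t in Set.Ioi (0:ℝ), om k δ t * ‖riemannZeta (cl t)‖ ^ 6) / 2 := by
      rw [integral_div, integral_add iom i6, om_mass k hδ]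
    rw [e1]
    have := tail_int.2
    have h20 : 0 ≤ T ^ (-20 : ℝ) := by positivity
    nlinarith
  have hsplit : (∫ t in Set.Ioi (0:ℝ), (om k δ t : ℂ) * (riemannZeta (cl t) ^ 3 * Xf (cl t)) *
        ef φ t) = (∫ t in Set.Ioi (0:ℝ), D t) + ∫ t in Set.Ioi (0:ℝ), riemannZeta (cl t) ^ 3 *
          Gf k δ (cl t) * ef φ t := by
    have iG : IntegrableOn (fun t => riemannZeta (cl t) ^ 3 * Gf k δ (cl t) * ef φ t)
        (Set.Ioi 0) := by
      refine (i1.sub iD).congr (Eventually.of_forall fun t => ?_)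
      simp only [hD, Pi.sub_apply]; ring
    rw [← integral_add iD iG]
    refine integral_congr_ae (Eventually.of_forall fun t => ?_)
    simp only [hD]; ring
  rw [hsplit]
  have e5 : T ^ (-20 : ℝ) * 13824 + T ^ (-6 : ℝ) ≤ T ^ (-5 : ℝ) := by
    have a1 : T ^ (-20 : ℝ) ≤ T ^ (-6 : ℝ) :=
      Real.rpow_le_rpow_of_exponent_le hT1.le (by norm_num)
    have a2 : T ^ (-5 : ℝ) = T * T ^ (-6 : ℝ) := by
      rw [show (-5:ℝ) = 1 + (-6) by norm_num, Real.rpow_add hT0, Real.rpow_one]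
    have a3 : 0 < T ^ (-6 : ℝ) := by positivity
    rw [a2]
    nlinarith
  calc _ = ‖(∫ t in Set.Ioi (0:ℝ), D t) + ((∫ t in Set.Ioi (0:ℝ), riemannZeta (cl t) ^ 3 *
          Gf k δ (cl t) * ef φ t) - (Real.sqrt ((b 1 : ℝ) / b 0) : ℂ) *
          (SS k (b 0) (b 1) (Yf k T) / (((k.factorial : ℝ) * Yf k T ^ (k + 1) : ℝ) : ℂ)))‖ := by
        congr 1; ring
    _ ≤ (T ^ (-(3 / 4) : ℝ) * ((1 + ∫ t in Set.Ioi (0:ℝ), om k δ t *
          ‖riemannZeta (cl t)‖ ^ 6) / 2) + T ^ (-20 : ℝ) * 13824) + T ^ (-6 : ℝ) :=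
        (norm_add_le _ _).trans (add_le_add (hDn.trans hgI) hm)
    _ ≤ _ := by linarith

end

end Pool.Agent.H306R2.SM
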