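import Pool.Agent.H306R2.SM.Asm2

set_option autoImplicit false

/-! Assembly 3: the diagonal sum over `n`. -/

namespace Pool.Agent.H306R2.SM

open Finset Filter Topology MeasureTheory Complex

noncomputable section

/-- the diagonal sum -/
def Bs (ε T : ℝ) : ℝ := ∑ n ∈ Icc 1 ⌊T ^ (1 - ε)⌋₊, (d3 n / Real.sqrt n) ^ 2

lemma d3_nonneg (n : ℕ) : 0 ≤ d3 n := dv_nonneg (by norm_num) n

def e3 : Fin 1 → ℝ := ![3]

lemma e3_sum : ∑ i, e3 i = 3 := by simp [e3]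

lemma e3_pos : ∀ i, 0 < e3 i := by intro i; fin_cases i; simp [e3]

/-- sum over `n` as a sum over one-tuples -/
def Fb1 (N : ℕ) (b : Fin 1 → ℕ) : ℝ :=
  if b 0 ∈ Icc 1 N then (d3 (b 0) / Real.sqrt (b 0)) ^ 2 else 0

def emb1 : ℕ ↪ (Fin 1 → ℕ) := ⟨fun n => (fun _ : Fin 1 => n), fun _ _ h => congrFun h 0⟩

lemma emb1_apply (n : ℕ) : emb1 n 0 = n := rfl

lemma Fb1_hasSum (N : ℕ) : HasSum (Fb1 N) (∑ n ∈ Icc 1 N, (d3 n / Real.sqrt n) ^ 2) := by
  have h : HasSum (Fb1 N) (∑ b ∈ (Icc 1 N).map emb1, Fb1 N b) := hasSum_sum_of_ne_finset_zero (by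
      intro b hb
      unfold Fb1
      rw [if_neg]
      intro h
      apply hb
      rw [Finset.mem_map]
      refine ⟨b 0, h, ?_⟩
      funext i
      fin_cases i; rfl)
  rw [Finset.sum_map] at h
  convert h using 1
  refine sum_congr rfl fun n hn => ?_
  unfold Fb1
  rw [emb1_apply, if_pos hn]

lemma wt_one (b : Fin 1 → ℕ) (hb : 1 ≤ b 0) : wt 3 e3 b = (d3 (b 0) / Real.sqrt (b 0)) ^ 2 := by
  unfold wt
  rw [Fin.prod_univ_one, Fin.prod_univ_one]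
  have h0 : (0:ℝ) ≤ (b 0 : ℝ) := by positivity
  rw [div_pow, Real.sq_sqrt h0]
  simp only [d3, e3, Matrix.cons_val_zero]
  ring

lemma log_scale {ε T : ℝ} (hε1 : ε < 1) (hT : 1 < T) (n : ℕ) (hn : 1 ≤ n) :
    Real.log n / ((1 - ε) * Real.log T) ≤ 1 ↔ n ≤ ⌊T ^ (1 - ε)⌋₊ := by
  have h1 : 0 < (1 - ε) * Real.log T := mul_pos (by linarith) (Real.log_pos hT)
  rw [div_le_one h1, Nat.le_floor_iff (by positivity), ← Real.log_rpow (by linarith)]
  exact Real.log_le_log_iff (by exact_mod_cast hn) (by positivity)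

lemma Bs_lower (ε : ℝ) (hε : 0 < ε) (hε1 : ε < 1) (c : ℝ)
    (hc : c < aF 3 * ((1 - ε) ^ 9 / (Nat.factorial 9 : ℝ))) :
    ∀ᶠ T : ℝ in atTop, c * Real.log T ^ 9 ≤ Bs ε T := by
  have h9 : 0 < (1 - ε) ^ 9 := pow_pos (by linarith) 9
  have hc' : c / (1 - ε) ^ 9 < aF (∑ i, e3 i) * ((∏ i : Fin 0, ((fun _ => 1 : Fin 0 → ℝ) i) ^
        ((∑ i, e3 i) * e3 i.succ) / Real.Gamma ((∑ i, e3 i) * e3 i.succ + 1)) *
      ((1 - ∑ i : Fin 0, ((fun _ => 1 : Fin 0 → ℝ) i) * ((∑ i, e3 i) * e3 i.succ /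
        ((∑ i, e3 i) * e3 i.succ + 1))) ^
        ((∑ i, e3 i) * e3 0) / Real.Gamma ((∑ i, e3 i) * e3 0 + 1))) := by
    rw [e3_sum]
    simp only [univ_eq_empty, prod_empty, sum_empty, sub_zero, Real.one_rpow, one_mul]
    have hG : Real.Gamma (3 * e3 0 + 1) = (Nat.factorial 9 : ℝ) := by
      have := Real.Gamma_nat_eq_factorial 9
      rw [← this]
      congr 1
      simp [e3]; norm_num
    rw [hG, div_lt_iff₀ h9]
    calc c < _ := hc
      _ = _ := by ring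
  have h := wt_lower e3 e3_pos (fun _ => 1) (fun _ => one_pos) (by simp) (by
    rw [e3_sum]; simp [e3]; norm_num) _ hc'
  have hs : Tendsto (fun T : ℝ => (1 - ε) * Real.log T) atTop atTop :=
    Real.tendsto_log_atTop.const_mul_atTop (by linarith)
  filter_upwards [hs.eventually h, eventually_gt_atTop 1] with T h1 hT
  have hF := Fb1_hasSum ⌊T ^ (1 - ε)⌋₊
  have h2 := h1 (Fb1 ⌊T ^ (1 - ε)⌋₊) hF.summable (fun b => by
    unfold Fb1; split_ifs <;> positivity) (fun b hb _ => by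
      rw [e3_sum]
      rw [Fin.sum_univ_one] at hb
      simp only [pos] at hb
      by_cases h0 : b 0 = 0
      · rw [show wt 3 e3 b = 0 from by
          have := (wt_KH e3 e3_pos one_pos).hw0 b ⟨0, h0⟩
          rwa [e3_sum] at this]
        unfold Fb1; split_ifs <;> positivity
      · have hb1 : 1 ≤ b 0 := Nat.one_le_iff_ne_zero.mpr h0
        rw [wt_one b hb1]
        unfold Fb1
        rw [if_pos]
        rw [mem_Icc]
        exact ⟨hb1, (log_scale hε1 hT _ hb1).mp hb⟩)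
  rw [hF.tsum_eq, e3_sum] at h2
  have e9 : ((1 - ε) * Real.log T) ^ ((3:ℝ) ^ 2) = (1 - ε) ^ 9 * Real.log T ^ 9 := by
    rw [show ((3:ℝ) ^ 2) = ((9:ℕ):ℝ) by norm_num, Real.rpow_natCast, mul_pow]
  rw [e9] at h2
  calc c * Real.log T ^ 9 = c / (1 - ε) ^ 9 * ((1 - ε) ^ 9 * Real.log T ^ 9) := by
        rw [← mul_assoc, div_mul_cancel₀ _ h9.ne']
    _ ≤ _ := h2

lemma Bs_upper (ε : ℝ) (hε : 0 < ε) (hε1 : ε < 1) :
    ∃ C : ℝ, 0 < C ∧ ∀ᶠ T : ℝ in atTop, Bs ε T ≤ C * Real.log T ^ 9 := by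
  have haF : 0 < aF 3 := aF_pos (by norm_num)
  set C : ℝ := aF 3 * ∏ i : Fin 1, (1:ℝ) ^ (3 * e3 i) / Real.Gamma (3 * e3 i + 1) + 1 with hC
  have hpos : 0 < C := by
    have : 0 ≤ aF 3 * ∏ i : Fin 1, (1:ℝ) ^ (3 * e3 i) / Real.Gamma (3 * e3 i + 1) := by
      refine mul_nonneg haF.le (prod_nonneg fun i _ => ?_)
      have : 0 < Real.Gamma (3 * e3 i + 1) := Real.Gamma_pos_of_pos (by linarith [e3_pos i])
      positivity
    linarith
  have h := wt_upper e3 e3_pos one_pos (fun _ => 1) (fun _ => one_pos) C (by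
    rw [e3_sum, hC]; linarith)
  refine ⟨C * (1 - ε) ^ 9, mul_pos hpos (pow_pos (by linarith) 9), ?_⟩
  have hs : Tendsto (fun T : ℝ => (1 - ε) * Real.log T) atTop atTop :=
    Real.tendsto_log_atTop.const_mul_atTop (by linarith)
  filter_upwards [hs.eventually h, eventually_gt_atTop 1] with T h1 hT
  have hF := Fb1_hasSum ⌊T ^ (1 - ε)⌋₊
  have h2 := h1 (Fb1 ⌊T ^ (1 - ε)⌋₊) hF.summable (fun b _ => by
      rw [e3_sum]
      unfold Fb1
      split_ifs with hb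
      · rw [wt_one b (mem_Icc.mp hb).1]
      · have := (wt_KH e3 e3_pos one_pos).hw b
        rwa [e3_sum] at this) (fun b hb => by
      unfold Fb1
      rw [if_neg]
      intro hb2
      rw [mem_Icc] at hb2
      apply hb
      intro i
      fin_cases i
      simp only [pos]
      exact (log_scale hε1 hT _ hb2.1).mpr hb2.2)
  rw [hF.tsum_eq, e3_sum] at h2
  have e9 : ((1 - ε) * Real.log T) ^ ((3:ℝ) ^ 2) = (1 - ε) ^ 9 * Real.log T ^ 9 := by
    rw [show ((3:ℝ) ^ 2) = ((9:ℕ):ℝ) by norm_num, Real.rpow_natCast, mul_pow]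
  rw [e9] at h2
  calc Bs ε T ≤ C * ((1 - ε) ^ 9 * Real.log T ^ 9) := h2
    _ = _ := by ring

end

end Pool.Agent.H306R2.SM
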