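import Pool.Agent.H306R2.SM.Asm4

set_option autoImplicit false

/-! Assembly 5: sums over the index set. -/

namespace Pool.Agent.H306R2.SM

open Finset Filter Topology MeasureTheory Complex

noncomputable section

lemma harm_le {T : ℝ} (hT : 1 ≤ T) : ∑ l ∈ Icc 1 ⌊T⌋₊, 1 / (l : ℝ) ≤ 1 + Real.log T := by
  have h := harmonic_le_one_add_log ⌊T⌋₊
  have h1 : (harmonic ⌊T⌋₊ : ℝ) = ∑ l ∈ Icc 1 ⌊T⌋₊, 1 / (l : ℝ) := by
    rw [harmonic_eq_sum_Icc]
    push_cast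
    refine sum_congr rfl fun i _ => ?_
    rw [one_div]
  rw [← h1]
  refine h.trans ?_
  have h2 : (0:ℝ) < ⌊T⌋₊ := by
    have : 1 ≤ ⌊T⌋₊ := (Nat.one_le_floor_iff T).mpr hT
    exact_mod_cast this
  have := Real.log_le_log h2 (Nat.floor_le (by linarith))
  linarith

lemma S_sub {lam ε T : ℝ} {b : Fin 2 → ℕ} (hb : b ∈ Sset lam ε T) :
    b ∈ Fintype.piFinset fun _ : Fin 2 => Icc 1 ⌊T⌋₊ := by
  classical
  unfold Sset at hb
  exact (mem_filter.mp hb).1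

lemma S_sum_le (lam ε T : ℝ) (F G : ℕ → ℝ) (hF : ∀ n, 0 ≤ F n) (hG : ∀ n, 0 ≤ G n) :
    ∑ b ∈ Sset lam ε T, F (b 0) * G (b 1) ≤
      (∑ h ∈ Icc 1 ⌊T⌋₊, F h) * ∑ l ∈ Icc 1 ⌊T⌋₊, G l := by
  have h := Finset.prod_univ_sum (fun _ : Fin 2 => Icc 1 ⌊T⌋₊) (fun i x => (![F, G] i) x)
  simp only [Fin.prod_univ_two, Matrix.cons_val_zero, Matrix.cons_val_one] at h
  rw [h]
  refine sum_le_sum_of_subset_of_nonneg (fun b hb => S_sub hb) ?_
  intro b _ _
  exact mul_nonneg (hF _) (hG _)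

lemma psi_nonneg (h : ℕ) : 0 ≤ psi h := by
  unfold psi
  refine Finset.prod_nonneg fun p hp => ?_
  have hp2 : p.Prime := Nat.prime_of_mem_primeFactors (by simpa using hp)
  have : (2:ℝ) ≤ p := by exact_mod_cast hp2.two_le
  have h1 : 1 / (p:ℝ) ≤ 1 := by rw [div_le_one (by linarith)]; linarith
  have : 0 ≤ (h.factorization p : ℝ) * (1 - 1 / (p:ℝ)) := mul_nonneg (by positivity) (by linarith)
  linarith

lemma one_le_prod_aux (s : Finset ℕ) (f : ℕ → ℝ) (h : ∀ i ∈ s, 1 ≤ f i) : 1 ≤ ∏ i ∈ s, f i := by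
  calc (1:ℝ) = ∏ i ∈ s, (1:ℝ) := by simp
    _ ≤ _ := prod_le_prod (fun _ _ => zero_le_one) h

lemma Em_one_le (h : ℕ) : 1 ≤ Em h := by
  unfold Em
  refine one_le_prod_aux _ _ fun p hp => ?_
  have hp2 : p.Prime := Nat.prime_of_mem_primeFactors (by simpa using hp)
  have : (0:ℝ) < p := by exact_mod_cast hp2.pos
  have h1 : 0 ≤ (1 + Real.log p) ^ 2 * (if h.factorization p = 1 then 1 / (p : ℝ)
      else (h.factorization p : ℝ) ^ 2) := by
    refine mul_nonneg (by positivity) ?_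
    split_ifs <;> positivity
  linarith

lemma hq_one_le (h : ℕ) : 1 ≤ hq h := by
  unfold hq
  refine one_le_prod_aux _ _ fun p hp => ?_
  have hp2 : p.Prime := Nat.prime_of_mem_primeFactors (by simpa using hp)
  have : (1:ℝ) ≤ p := by exact_mod_cast hp2.one_lt.le
  change 1 ≤ if 2 ≤ h.factorization p then (p : ℝ) ^ (h.factorization p) else 1
  split_ifs
  · exact one_le_pow₀ this
  · exact le_rfl

lemma Qf_nonneg (h : ℕ) : 0 ≤ Qf h := by
  unfold Qf; exact sum_nonneg fun p _ => by positivity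

lemma w1_eq {lam ε T : ℝ} {b : Fin 2 → ℕ} (hb : SP lam ε T b) :
    w1 b = psi (b 0) ^ 2 / ((b 0 : ℝ) * (b 1 : ℝ)) := by
  unfold w1
  rw [if_pos]
  exact ⟨hb.cop, by have := hb.h0; omega, by have := hb.h1; omega⟩

lemma w1_nonneg (b : Fin 2 → ℕ) : 0 ≤ w1 b := w1_KH.hw b

/-- the `tsum` is a finite sum -/
lemma tsum_S {lam ε T : ℝ} (hlam : 1 ≤ lam) (hε : 0 < ε) (hT : 1 < T) (g : (Fin 2 → ℝ) → ℝ)
    (v : ℕ → ℝ) :
    ∑' b : Fin 2 → ℕ, (w1 b * v (b 0)) * (phi lam ε (pos (Real.log T) b) * g (pos (Real.log T) b)) =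
      ∑ b ∈ Sset lam ε T, (w1 b * v (b 0)) *
        (phi lam ε (pos (Real.log T) b) * g (pos (Real.log T) b)) := by
  classical
  refine tsum_eq_sum fun b hb => ?_
  by_cases hw : w1 b = 0
  · rw [hw]; simp
  by_cases hp : phi lam ε (pos (Real.log T) b) = 0
  · rw [hp]; simp
  exfalso
  apply hb
  unfold Sset
  have hc : Nat.Coprime (b 0) (b 1) ∧ b 0 ≠ 0 ∧ b 1 ≠ 0 := by
    by_contra h
    apply hw
    unfold w1
    rw [if_neg h]
  have hL : 0 < Real.log T := Real.log_pos hT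
  rw [mem_filter, Fintype.mem_piFinset]
  refine ⟨fun i => ?_, hc.1, hp⟩
  have hi : b i ≠ 0 := by fin_cases i <;> simp [hc.2.1, hc.2.2]
  rw [mem_Icc]
  refine ⟨Nat.one_le_iff_ne_zero.mpr hi, ?_⟩
  rw [Nat.le_floor_iff (by linarith)]
  by_contra hlt
  push Not at hlt
  apply hp
  refine phi_zero hlam hε _ (pos_nonneg hL b) ⟨i, ?_⟩
  unfold pos
  rw [le_div_iff₀ hL, one_mul]
  exact Real.log_le_log (by linarith) hlt.le

lemma w1Q_eq (b : Fin 2 → ℕ) : w1Q b = w1 b * Qf (b 0) := rfl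

/-- limit of the `w1`-sums -/
lemma lim_w1 {lam ε : ℝ} (hlam : 1 ≤ lam) (hε : 0 < ε) (g : (Fin 2 → ℝ) → ℝ) (hg : Continuous g) :
    Tendsto (fun T : ℝ => (∑ b ∈ Sset lam ε T, w1 b *
        (phi lam ε (pos (Real.log T) b) * g (pos (Real.log T) b))) / Real.log T ^ 5)
      atTop (𝓝 (aF 3 * ∫ u : Fin 2 → ℝ, Gd ![4, 1] u * (phi lam ε u * g u))) := by
  have haF : 0 < aF 3 := aF_pos (by norm_num)
  have h := karamata w1_KH 5 (aF 3) haF.le ![4, 1] (by intro i; fin_cases i <;> simp)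
    (fun s hs => w1_lim s hs) (fun u => phi lam ε u * g u) ((phi_cont lam ε).mul hg) 1
    (fun u hu hi => by rw [phi_zero hlam hε u hu hi, zero_mul]) zero_le_one
  refine (h.comp Real.tendsto_log_atTop).congr' ?_
  filter_upwards [eventually_gt_atTop 1] with T hT
  simp only [Function.comp]
  have := tsum_S hlam hε hT g (fun _ => 1)
  simp only [mul_one] at this
  rw [this]
  congr 1
  rw [show (5:ℝ) = ((5:ℕ):ℝ) by norm_num, Real.rpow_natCast]

/-- limit of the `w1Q`-sums -/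
lemma lim_w1Q {lam ε : ℝ} (hlam : 1 ≤ lam) (hε : 0 < ε) :
    Tendsto (fun T : ℝ => (∑ b ∈ Sset lam ε T, w1 b * Qf (b 0) *
        phi lam ε (pos (Real.log T) b)) / Real.log T ^ 7)
      atTop (𝓝 (4 * aF 3 * ∫ u : Fin 2 → ℝ, Gd ![6, 1] u * phi lam ε u)) := by
  have haF : 0 < aF 3 := aF_pos (by norm_num)
  have h := karamata w1Q_KH 7 (4 * aF 3) (by positivity) ![6, 1] (by intro i; fin_cases i <;> simp)
    (fun s hs => w1Q_lim s hs) (phi lam ε) (phi_cont lam ε) 1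
    (fun u hu hi => phi_zero hlam hε u hu hi) zero_le_one
  refine (h.comp Real.tendsto_log_atTop).congr' ?_
  filter_upwards [eventually_gt_atTop 1] with T hT
  simp only [Function.comp]
  have := tsum_S hlam hε hT (fun _ => 1) Qf
  simp only [mul_one] at this
  simp only [w1Q_eq]
  rw [this]
  congr 1
  rw [show (7:ℝ) = ((7:ℕ):ℝ) by norm_num, Real.rpow_natCast]

lemma sum_w1_le : ∃ C : ℝ, 0 < C ∧ ∀ (lam ε T : ℝ), 1 ≤ lam → 0 < ε → 1 < T →
    ∑ b ∈ Sset lam ε T, w1 b * Em (b 0) ^ 2 ≤ C * (1 + Real.log T) ^ 5 := by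
  obtain ⟨C, hC, h⟩ := sum_psi_Em
  refine ⟨C, hC, fun lam ε T hlam hε hT => ?_⟩
  have hL : 0 < Real.log T := Real.log_pos hT
  calc ∑ b ∈ Sset lam ε T, w1 b * Em (b 0) ^ 2 =
        ∑ b ∈ Sset lam ε T, (psi (b 0) ^ 2 * Em (b 0) ^ 2 / (b 0 : ℝ)) * (1 / (b 1 : ℝ)) := by
        refine sum_congr rfl fun b hb => ?_
        rw [w1_eq (Sset_prop hlam hε hT hb)]
        have := (Sset_prop hlam hε hT hb).h0
        have := (Sset_prop hlam hε hT hb).h1
        field_simp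
    _ ≤ (∑ h ∈ Icc 1 ⌊T⌋₊, psi h ^ 2 * Em h ^ 2 / (h : ℝ)) * ∑ l ∈ Icc 1 ⌊T⌋₊, 1 / (l : ℝ) :=
        S_sum_le lam ε T (fun h => psi h ^ 2 * Em h ^ 2 / (h : ℝ)) (fun l => 1 / (l : ℝ))
          (fun n => by positivity) (fun n => by positivity)
    _ ≤ (C * (1 + Real.log T) ^ 4) * (1 + Real.log T) :=
        mul_le_mul (h T hT.le) (harm_le hT.le) (sum_nonneg fun l _ => by positivity) (by positivity)
    _ = _ := by ring

lemma sum_w1_le' : ∃ C : ℝ, 0 < C ∧ ∀ (lam ε T : ℝ), 1 ≤ lam → 0 < ε → 1 < T →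
    ∑ b ∈ Sset lam ε T, w1 b ≤ C * (1 + Real.log T) ^ 5 := by
  obtain ⟨C, hC, h⟩ := sum_w1_le
  refine ⟨C, hC, fun lam ε T hlam hε hT => le_trans (sum_le_sum fun b _ => ?_) (h lam ε T hlam hε hT)⟩
  have h1 := Em_one_le (b 0)
  have h2 : 1 ≤ Em (b 0) ^ 2 := one_le_pow₀ h1
  have := w1_nonneg b
  nlinarith

/-- the sum of squares of the coefficients -/
lemma cc_sq {lam ε T : ℝ} (hlam : 1 ≤ lam) (hε : 0 < ε) (hT : 1 < T) {b : Fin 2 → ℕ}
    (hb : b ∈ Sset lam ε T) :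
    cc lam ε T b ^ 2 = Real.log T ^ 4 * (w1 b *
      (phi lam ε (pos (Real.log T) b) * phi lam ε (pos (Real.log T) b))) := by
  have hp := Sset_prop hlam hε hT hb
  rw [w1_eq hp]
  unfold cc
  have h0 : (0:ℝ) < b 0 := by exact_mod_cast hp.h0
  have h1 : (0:ℝ) < b 1 := by exact_mod_cast hp.h1
  rw [mul_pow, mul_pow, div_pow, Real.sq_sqrt (by positivity)]
  ring

lemma card_S_le {lam ε T : ℝ} (hlam : 1 ≤ lam) (hε : 0 < ε) (hT : 1 < T) :
    ((Sset lam ε T).card : ℝ) ≤ T ^ (1 - ε) * (1 + Real.log T) ^ 2 := by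
  have hL : 0 < Real.log T := Real.log_pos hT
  have hT0 : 0 < T := by linarith
  calc ((Sset lam ε T).card : ℝ) = ∑ b ∈ Sset lam ε T, (1:ℝ) := by simp
    _ ≤ ∑ b ∈ Sset lam ε T, T ^ (1 - ε) * ((1 / (b 0 : ℝ)) * (1 / (b 1 : ℝ))) := by
        refine sum_le_sum fun b hb => ?_
        have hp := Sset_prop hlam hε hT hb
        have h0 : (0:ℝ) < b 0 := by exact_mod_cast hp.h0
        have h1 : (0:ℝ) < b 1 := by exact_mod_cast hp.h1
        have := hp.prod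
        rw [show T ^ (1 - ε) * ((1 / (b 0 : ℝ)) * (1 / (b 1 : ℝ))) = T ^ (1 - ε) / ((b 0 : ℝ) * b 1) by
          field_simp, le_div_iff₀ (by positivity)]
        linarith
    _ = T ^ (1 - ε) * ∑ b ∈ Sset lam ε T, ((1 / (b 0 : ℝ)) * (1 / (b 1 : ℝ))) := by rw [mul_sum]
    _ ≤ T ^ (1 - ε) * ((∑ h ∈ Icc 1 ⌊T⌋₊, 1 / (h : ℝ)) * ∑ l ∈ Icc 1 ⌊T⌋₊, 1 / (l : ℝ)) := by
        refine mul_le_mul_of_nonneg_left ?_ (by positivity)
        exact S_sum_le lam ε T (fun n => 1 / (n:ℝ)) (fun n => 1 / (n:ℝ)) (fun n => by positivity)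
          (fun n => by positivity)
    _ ≤ T ^ (1 - ε) * ((1 + Real.log T) * (1 + Real.log T)) := by
        refine mul_le_mul_of_nonneg_left ?_ (by positivity)
        exact mul_le_mul (harm_le hT.le) (harm_le hT.le) (sum_nonneg fun l _ => by positivity)
          (by positivity)
    _ = _ := by ring

/-- polylogarithms are small -/
lemma polylog_small (C a : ℝ) (ha : 0 < a) (A : ℕ) :
    ∀ᶠ T : ℝ in atTop, C * (1 + Real.log T) ^ A ≤ T ^ a := by
  have h := (isLittleO_log_rpow_atTop (r := a / (2 * (A + 1))) (by positivity)).bound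
    (c := 1 / 2) (by norm_num)
  have h2 : ∀ᶠ T : ℝ in atTop, |C| ≤ T ^ (a / 2) :=
    (tendsto_rpow_atTop (by positivity)).eventually_ge_atTop _
  have h3 : ∀ᶠ T : ℝ in atTop, 2 ≤ T ^ (a / (2 * (A + 1))) :=
    (tendsto_rpow_atTop (by positivity)).eventually_ge_atTop _
  filter_upwards [h, h2, h3, eventually_gt_atTop 1] with T h h2 h3 hT
  have hL : 0 < Real.log T := Real.log_pos hT
  have hT0 : 0 < T := by linarith
  rw [Real.norm_of_nonneg hL.le, Real.norm_of_nonneg (by positivity)] at h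
  have h4 : 1 + Real.log T ≤ T ^ (a / (2 * (A + 1))) := by linarith
  calc C * (1 + Real.log T) ^ A ≤ |C| * (1 + Real.log T) ^ A :=
        mul_le_mul_of_nonneg_right (le_abs_self C) (by positivity)
    _ ≤ T ^ (a / 2) * (T ^ (a / (2 * (A + 1)))) ^ A :=
        mul_le_mul h2 (pow_le_pow_left₀ (by positivity) h4 _) (by positivity) (by positivity)
    _ = T ^ (a / 2 + a / (2 * (A + 1)) * A) := by
        rw [← Real.rpow_natCast, ← Real.rpow_mul hT0.le, ← Real.rpow_add hT0]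
    _ ≤ T ^ a := by
        apply Real.rpow_le_rpow_of_exponent_le hT.le
        have : a / (2 * (A + 1)) * A ≤ a / 2 := by
          rw [div_mul_eq_mul_div, div_le_div_iff₀ (by positivity) (by positivity)]
          nlinarith
        linarith

lemma sum_cc_sq_le {lam ε : ℝ} (hlam : 1 ≤ lam) (hε : 0 < ε) : ∃ C : ℝ, 0 < C ∧ ∀ T : ℝ, 1 < T →
    ∑ b ∈ Sset lam ε T, cc lam ε T b ^ 2 ≤ C * (1 + Real.log T) ^ 9 := by
  obtain ⟨C, hC, h⟩ := sum_w1_le'
  refine ⟨C, hC, fun T hT => ?_⟩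
  have hL : 0 < Real.log T := Real.log_pos hT
  calc ∑ b ∈ Sset lam ε T, cc lam ε T b ^ 2 ≤ ∑ b ∈ Sset lam ε T, (1 + Real.log T) ^ 4 * w1 b := by
        refine sum_le_sum fun b hb => ?_
        rw [cc_sq hlam hε hT hb]
        have h1 := phi_abs (lam := lam) (ε := ε) hlam hε (pos_nonneg hL b)
        have h2 : phi lam ε (pos (Real.log T) b) * phi lam ε (pos (Real.log T) b) ≤ 1 := by
          rw [← abs_mul_abs_self]
          exact mul_le_one₀ h1 (abs_nonneg _) h1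
        have h3 := w1_nonneg b
        refine mul_le_mul ?_ ?_ (mul_nonneg h3 (mul_self_nonneg _)) (by positivity)
        · apply pow_le_pow_left₀ hL.le; linarith
        · calc w1 b * _ ≤ w1 b * 1 := mul_le_mul_of_nonneg_left h2 h3
            _ = w1 b := mul_one _
    _ = (1 + Real.log T) ^ 4 * ∑ b ∈ Sset lam ε T, w1 b := by rw [mul_sum]
    _ ≤ (1 + Real.log T) ^ 4 * (C * (1 + Real.log T) ^ 5) :=
        mul_le_mul_of_nonneg_left (h lam ε T hlam hε hT) (by positivity)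
    _ = _ := by ring

/-- `Σ |c_b| ≤ T^{1/2}` -/
lemma sum_cc_le {lam ε : ℝ} (hlam : 1 ≤ lam) (hε : 0 < ε) : ∀ᶠ T : ℝ in atTop,
    ∑ b ∈ Sset lam ε T, |cc lam ε T b| ≤ T ^ (1 / 2 : ℝ) := by
  obtain ⟨C, hC, h⟩ := sum_cc_sq_le hlam hε
  filter_upwards [polylog_small C ε hε 11, eventually_gt_atTop 1] with T h1 hT
  have hT0 : 0 < T := by linarith
  have hL : 0 < Real.log T := Real.log_pos hT
  have e : T ^ (1 / 2 : ℝ) = Real.sqrt T := by rw [Real.sqrt_eq_rpow]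
  rw [e]
  apply Real.le_sqrt_of_sq_le
  calc (∑ b ∈ Sset lam ε T, |cc lam ε T b|) ^ 2 ≤
        (Sset lam ε T).card * ∑ b ∈ Sset lam ε T, |cc lam ε T b| ^ 2 := sq_sum_le_card_mul_sum_sq
    _ = (Sset lam ε T).card * ∑ b ∈ Sset lam ε T, cc lam ε T b ^ 2 := by simp only [sq_abs]
    _ ≤ (T ^ (1 - ε) * (1 + Real.log T) ^ 2) * (C * (1 + Real.log T) ^ 9) :=
        mul_le_mul (card_S_le hlam hε hT) (h T hT) (sum_nonneg fun _ _ => sq_nonneg _) (by positivity)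
    _ = T ^ (1 - ε) * (C * (1 + Real.log T) ^ 11) := by ring
    _ ≤ T ^ (1 - ε) * T ^ ε := mul_le_mul_of_nonneg_left h1 (by positivity)
    _ = T := by rw [← Real.rpow_add hT0]; simp

/-- `Σ |b_n| ≤ T^{1/2}` -/
lemma sum_b_le {ε : ℝ} (hε : 0 < ε) (hε1 : ε < 1) : ∀ᶠ T : ℝ in atTop,
    ∑ n ∈ Icc 1 ⌊T ^ (1 - ε)⌋₊, |d3 n / Real.sqrt n| ≤ T ^ (1 / 2 : ℝ) := by
  obtain ⟨C, hC, h⟩ := Bs_upper ε hε hε1
  filter_upwards [polylog_small C ε hε 9, h, eventually_gt_atTop 1] with T h1 h hT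
  have hT0 : 0 < T := by linarith
  have hL : 0 < Real.log T := Real.log_pos hT
  have e : T ^ (1 / 2 : ℝ) = Real.sqrt T := by rw [Real.sqrt_eq_rpow]
  rw [e]
  apply Real.le_sqrt_of_sq_le
  calc (∑ n ∈ Icc 1 ⌊T ^ (1 - ε)⌋₊, |d3 n / Real.sqrt n|) ^ 2 ≤
        (Icc 1 ⌊T ^ (1 - ε)⌋₊).card * ∑ n ∈ Icc 1 ⌊T ^ (1 - ε)⌋₊, |d3 n / Real.sqrt n| ^ 2 :=
        sq_sum_le_card_mul_sum_sq
    _ = (Icc 1 ⌊T ^ (1 - ε)⌋₊).card * Bs ε T := by simp only [sq_abs]; rfl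
    _ ≤ T ^ (1 - ε) * (C * (1 + Real.log T) ^ 9) := by
        refine mul_le_mul ?_ ?_ (sum_nonneg fun _ _ => sq_nonneg _) (by positivity)
        · rw [Nat.card_Icc, Nat.add_sub_cancel]
          exact Nat.floor_le (by positivity)
        · refine h.trans (mul_le_mul_of_nonneg_left ?_ hC.le)
          apply pow_le_pow_left₀ hL.le; linarith
    _ ≤ T ^ (1 - ε) * T ^ ε := mul_le_mul_of_nonneg_left h1 (by positivity)
    _ = T := by rw [← Real.rpow_add hT0]; simp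

end

end Pool.Agent.H306R2.SM
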