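import Pool.Agent.H306R2.SM.Asm6

set_option autoImplicit false

/-! Assembly 7: the arithmetic evaluation and the error sums. -/

namespace Pool.Agent.H306R2.SM

open Finset Filter Topology MeasureTheory Complex

noncomputable section

/-- main value -/
def mB (k : ℕ) (T : ℝ) (b : Fin 2 → ℕ) : ℝ :=
  ((Real.log ((b 0 : ℝ) * Yf k T / b 1) - 3 / 2 * Real.log (b 0)) ^ 2 - 3 / 4 * Qf (b 0)) / 2

/-- `SS/(k! Y^{k+1})` -/
def SN (k : ℕ) (T : ℝ) (b : Fin 2 → ℕ) : ℂ :=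
  SS k (b 0) (b 1) (Yf k T) / (((k.factorial : ℝ) * Yf k T ^ (k + 1) : ℝ) : ℂ)

lemma SN_approx (κ : ℝ) (hκ : 1 / 2 ≤ κ) (hκ1 : κ ≤ 1) (hK : KB κ) (ε' : ℝ) (hε' : 0 < ε') :
    ∃ C : ℝ, ∃ A : ℕ, 0 < C ∧ ∀ k : ℕ, 1 ≤ k → ∀ T : ℝ, 1 ≤ Yf k T → ∀ b : Fin 2 → ℕ,
      1 ≤ b 1 → b 1 ≤ b 0 → Nat.Coprime (b 0) (b 1) →
      ‖SN k T b - ((psi (b 0) / b 1 * mB k T b : ℝ) : ℂ)‖ ≤
        C * (k : ℝ) ^ A * (b 0 : ℝ) ^ (1 + κ + ε') * hq (b 0) ^ (1 - κ) / Yf k T +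
        C * (psi (b 0) / b 1) * Em (b 0) ^ 2 * (1 + Real.log k) ^ 2 *
          (1 + |Real.log ((b 0 : ℝ) * Yf k T / b 1)| + Real.log (b 0)) +
        C * (k : ℝ) ^ A * (b 0 : ℝ) ^ ε' * (b 1 : ℝ) ^ (-(3 / 4) : ℝ) *
          Yf k T ^ (-(1 / 4) : ℝ) := by
  obtain ⟨C1, A1, hC1, hD⟩ := D_bound κ hκ hκ1 hK ε' hε'
  obtain ⟨C2, A2, hC2, hM⟩ := M_asymp ε' hε'
  refine ⟨max C1 C2, max A1 A2, lt_max_of_lt_left hC1, fun k hk T hY b h1 h01 hc => ?_⟩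
  have h0 : 1 ≤ b 0 := h1.trans h01
  set Y := Yf k T with hYdef
  have hY0 : 0 < Y := by linarith
  have hk1 : (1:ℝ) ≤ k := by exact_mod_cast hk
  have hkf : (0:ℝ) < (k.factorial : ℝ) := by exact_mod_cast Nat.factorial_pos k
  have hden : 0 < (k.factorial : ℝ) * Y ^ (k + 1) := by positivity
  have hD' := hD k hk (b 0) (b 1) h1 h01 hc Y hY
  have hM' := hM k hk (b 0) (b 1) h0 h1 Y hY
  have hq0 : 0 < hq (b 0) := lt_of_lt_of_le one_pos (hq_one_le _)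
  have hlk : 0 ≤ Real.log k := Real.log_nonneg hk1
  have hlb : 0 ≤ Real.log (b 0) := Real.log_natCast_nonneg _
  have hb0 : (0:ℝ) < b 0 := by exact_mod_cast h0
  have hb1 : (0:ℝ) < b 1 := by exact_mod_cast h1
  have hpsi := psi_nonneg (b 0)
  have e1 : SN k T b = (SS k (b 0) (b 1) Y - MM k (b 0) (b 1) Y) /
      (((k.factorial : ℝ) * Y ^ (k + 1) : ℝ) : ℂ) + MM k (b 0) (b 1) Y /
      (((k.factorial : ℝ) * Y ^ (k + 1) : ℝ) : ℂ) := by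
    unfold SN; rw [← add_div, sub_add_cancel]
  have n1 : ‖(SS k (b 0) (b 1) Y - MM k (b 0) (b 1) Y) /
      (((k.factorial : ℝ) * Y ^ (k + 1) : ℝ) : ℂ)‖ ≤
      max C1 C2 * (k : ℝ) ^ (max A1 A2) * (b 0 : ℝ) ^ (1 + κ + ε') * hq (b 0) ^ (1 - κ) / Y := by
    rw [norm_div, Complex.norm_real, Real.norm_of_nonneg hden.le]
    calc ‖SS k (b 0) (b 1) Y - MM k (b 0) (b 1) Y‖ / ((k.factorial : ℝ) * Y ^ (k + 1)) ≤
          (C1 * (k : ℝ) ^ A1 * (k.factorial : ℝ) * Y ^ k * (b 0 : ℝ) ^ (1 + κ + ε') *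
            hq (b 0) ^ (1 - κ)) / ((k.factorial : ℝ) * Y ^ (k + 1)) :=
          div_le_div_of_nonneg_right hD' hden.le
      _ = C1 * (k : ℝ) ^ A1 * (b 0 : ℝ) ^ (1 + κ + ε') * hq (b 0) ^ (1 - κ) / Y := by
          rw [pow_succ]; field_simp
      _ ≤ _ := by
          apply div_le_div_of_nonneg_right _ hY0.le
          have a1 : (k:ℝ) ^ A1 ≤ (k:ℝ) ^ (max A1 A2) := pow_le_pow_right₀ hk1 (le_max_left _ _)
          have a2 : C1 ≤ max C1 C2 := le_max_left _ _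
          gcongr
  have n2 : ‖MM k (b 0) (b 1) Y / (((k.factorial : ℝ) * Y ^ (k + 1) : ℝ) : ℂ) -
      ((psi (b 0) / b 1 * mB k T b : ℝ) : ℂ)‖ ≤
      max C1 C2 * (psi (b 0) / b 1) * Em (b 0) ^ 2 * (1 + Real.log k) ^ 2 *
          (1 + |Real.log ((b 0 : ℝ) * Y / b 1)| + Real.log (b 0)) +
      max C1 C2 * (k : ℝ) ^ (max A1 A2) * (b 0 : ℝ) ^ ε' * (b 1 : ℝ) ^ (-(3 / 4) : ℝ) *
          Y ^ (-(1 / 4) : ℝ) := by
    have a1 : (k:ℝ) ^ A2 ≤ (k:ℝ) ^ (max A1 A2) := pow_le_pow_right₀ hk1 (le_max_right _ _)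
    have a2 : C2 ≤ max C1 C2 := le_max_right _ _
    have a3 : 0 ≤ psi (b 0) / (b 1 : ℝ) := by positivity
    refine le_trans hM' ?_
    gcongr
  calc ‖SN k T b - ((psi (b 0) / b 1 * mB k T b : ℝ) : ℂ)‖ = ‖(SS k (b 0) (b 1) Y -
        MM k (b 0) (b 1) Y) / (((k.factorial : ℝ) * Y ^ (k + 1) : ℝ) : ℂ) +
        (MM k (b 0) (b 1) Y / (((k.factorial : ℝ) * Y ^ (k + 1) : ℝ) : ℂ) -
          ((psi (b 0) / b 1 * mB k T b : ℝ) : ℂ))‖ := by rw [e1]; congr 1; ring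
    _ ≤ _ := (norm_add_le _ _).trans (add_le_add n1 n2)
    _ = _ := by ring

/-- logarithm of `k` is small -/
lemma logk_small (θ : ℝ) (hθ : 0 < θ) : ∀ᶠ T : ℝ in atTop, ∀ k : ℕ, kr T k →
    (1 + Real.log (2 * Real.pi * k)) ^ 2 ≤ θ * Real.log T ∧ 0 ≤ Real.log (2 * Real.pi * k) ∧
      Real.log k ≤ Real.log (2 * Real.pi * k) := by
  have h1 : ∀ᶠ T : ℝ in atTop, max 1 ((289 / θ) ^ 2) ≤ Real.log T :=
    Real.tendsto_log_atTop.eventually_ge_atTop _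
  filter_upwards [h1, eventually_gt_atTop (Real.exp 1)] with T h1 hT k hk
  obtain ⟨hk1, -⟩ := kr_pos hT hk
  have hL1 : 1 ≤ Real.log T := le_trans (le_max_left _ _) h1
  have hL2 : (289 / θ) ^ 2 ≤ Real.log T := le_trans (le_max_right _ _) h1
  set L := Real.log T with hL
  have hk1' : (1:ℝ) ≤ k := by exact_mod_cast hk1
  have hpi := Real.pi_gt_three
  have hpi4 := Real.pi_le_four
  have hx1 : (1:ℝ) ≤ 2 * Real.pi * k := by nlinarith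
  have hkx : (k:ℝ) ≤ 2 * Real.pi * k := by nlinarith
  have hlog0 : 0 ≤ Real.log (2 * Real.pi * k) := Real.log_nonneg hx1
  refine ⟨?_, hlog0, Real.log_le_log (by linarith) hkx⟩
  have h2 : Real.log (2 * Real.pi * k) ≤ (2 * Real.pi * k) ^ (1 / 8 : ℝ) / (1 / 8) :=
    Real.log_le_rpow_div (by linarith) (by norm_num)
  have h3 : 2 * Real.pi * k ≤ 32 * L ^ 2 := by
    have := hk.2
    nlinarith
  have h4 : (2 * Real.pi * k) ^ (1 / 8 : ℝ) ≤ 2 * L ^ (1 / 4 : ℝ) := by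
    calc (2 * Real.pi * k) ^ (1 / 8 : ℝ) ≤ (32 * L ^ 2) ^ (1 / 8 : ℝ) :=
          Real.rpow_le_rpow (by linarith) h3 (by norm_num)
      _ ≤ (256 * L ^ 2) ^ (1 / 8 : ℝ) :=
          Real.rpow_le_rpow (by positivity) (by nlinarith) (by norm_num)
      _ = 2 * L ^ (1 / 4 : ℝ) := by
          rw [Real.mul_rpow (by norm_num) (by positivity), ← Real.rpow_natCast L 2,
            ← Real.rpow_mul (by linarith)]
          congr 1
          · rw [show (256:ℝ) = 2 ^ (8:ℝ) by norm_num, ← Real.rpow_mul (by norm_num)]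
            norm_num
          · norm_num
  have h5 : 1 ≤ L ^ (1 / 4 : ℝ) := Real.one_le_rpow hL1 (by norm_num)
  have h6 : 1 + Real.log (2 * Real.pi * k) ≤ 17 * L ^ (1 / 4 : ℝ) := by
    have : (2 * Real.pi * k) ^ (1 / 8 : ℝ) / (1 / 8) ≤ 16 * L ^ (1 / 4 : ℝ) := by
      rw [div_le_iff₀ (by norm_num)]; linarith
    linarith
  calc (1 + Real.log (2 * Real.pi * k)) ^ 2 ≤ (17 * L ^ (1 / 4 : ℝ)) ^ 2 :=
        pow_le_pow_left₀ (by linarith) h6 2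
    _ = 289 * L ^ (1 / 2 : ℝ) := by
        rw [mul_pow, ← Real.rpow_natCast (L ^ (1 / 4 : ℝ)) 2, ← Real.rpow_mul (by linarith)]
        norm_num
    _ ≤ θ * L := by
        have h7 : 289 / θ ≤ L ^ (1 / 2 : ℝ) := by
          rw [← Real.sqrt_eq_rpow]
          apply Real.le_sqrt_of_sq_le hL2
        rw [div_le_iff₀ hθ] at h7
        have h8 : L ^ (1 / 2 : ℝ) * L ^ (1 / 2 : ℝ) = L := by
          rw [← Real.rpow_add (by linarith)]; norm_num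
        have h9 : 0 ≤ L ^ (1 / 2 : ℝ) := by positivity
        nlinarith

/-- size of `Y` -/
lemma Yf_size : ∀ᶠ T : ℝ in atTop, ∀ k : ℕ, kr T k → 1 ≤ Yf k T ∧ Yf k T ≤ T ∧
    Real.log (Yf k T) = Real.log T - Real.log (2 * Real.pi * k) := by
  filter_upwards [polylog_small 32 1 one_pos 2, eventually_gt_atTop (Real.exp 1),
    eventually_gt_atTop 1] with T h1 hTe hT k hk
  obtain ⟨hk1, -⟩ := kr_pos hTe hk
  have hk1' : (1:ℝ) ≤ k := by exact_mod_cast hk1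
  have hpi := Real.pi_gt_three
  have hpi4 := Real.pi_le_four
  have hx1 : (1:ℝ) ≤ 2 * Real.pi * k := by nlinarith
  have hL : 0 < Real.log T := Real.log_pos hT
  have h3 : 2 * Real.pi * k ≤ T := by
    rw [Real.rpow_one] at h1
    have := hk.2
    have : 2 * Real.pi * (k:ℝ) ≤ 32 * Real.log T ^ 2 := by nlinarith
    nlinarith
  unfold Yf
  refine ⟨?_, ?_, ?_⟩
  · rw [le_div_iff₀ (by linarith)]; linarith
  · rw [div_le_iff₀ (by linarith)]; exact le_mul_of_one_le_right (by linarith) hx1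
  · rw [Real.log_div (by linarith) (by linarith)]

lemma cc_sqrt {lam ε T : ℝ} (hlam : 1 ≤ lam) (hε : 0 < ε) (hT : 1 < T) {b : Fin 2 → ℕ}
    (hb : b ∈ Sset lam ε T) :
    |cc lam ε T b| * Real.sqrt ((b 1 : ℝ) / b 0) ≤ Real.log T ^ 2 * (psi (b 0) / b 0) := by
  have hp := Sset_prop hlam hε hT hb
  have h0 : (0:ℝ) < b 0 := by exact_mod_cast hp.h0
  have h1 : (0:ℝ) < b 1 := by exact_mod_cast hp.h1
  have hL : 0 < Real.log T := Real.log_pos hT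
  have hphi := phi_abs (lam := lam) (ε := ε) hlam hε (pos_nonneg hL b)
  have hpsi := psi_nonneg (b 0)
  have e : Real.sqrt ((b 1 : ℝ) / b 0) = (b 1 : ℝ) / Real.sqrt ((b 0 : ℝ) * b 1) := by
    rw [Real.sqrt_div h1.le, Real.sqrt_mul h0.le]
    have s0 := Real.sqrt_pos.mpr h0
    have s1 := Real.sqrt_pos.mpr h1
    field_simp
    rw [Real.sq_sqrt h1.le]
  have hs : 0 < Real.sqrt ((b 0 : ℝ) * b 1) := Real.sqrt_pos.mpr (by positivity)
  have hss : Real.sqrt ((b 0 : ℝ) * b 1) * Real.sqrt ((b 0 : ℝ) * b 1) = (b 0 : ℝ) * b 1 :=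
    Real.mul_self_sqrt (by positivity)
  unfold cc
  rw [abs_mul, abs_of_nonneg (by positivity : 0 ≤ Real.log T ^ 2 * (psi (b 0) /
    Real.sqrt ((b 0 : ℝ) * b 1))), e]
  calc Real.log T ^ 2 * (psi (b 0) / Real.sqrt ((b 0 : ℝ) * b 1)) * |phi lam ε
        (pos (Real.log T) b)| * ((b 1 : ℝ) / Real.sqrt ((b 0 : ℝ) * b 1)) ≤
        Real.log T ^ 2 * (psi (b 0) / Real.sqrt ((b 0 : ℝ) * b 1)) * 1 *
          ((b 1 : ℝ) / Real.sqrt ((b 0 : ℝ) * b 1)) := by gcongr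
    _ = Real.log T ^ 2 * (psi (b 0) * b 1 / (Real.sqrt ((b 0 : ℝ) * b 1) *
          Real.sqrt ((b 0 : ℝ) * b 1))) := by field_simp
    _ = Real.log T ^ 2 * (psi (b 0) / b 0) := by rw [hss]; field_simp

end

end Pool.Agent.H306R2.SM
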