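import Pool.Agent.H306R2.SM.Asm7

set_option autoImplicit false

/-! Assembly 8: the error sums. -/

namespace Pool.Agent.H306R2.SM

open Finset Filter Topology MeasureTheory Complex

noncomputable section

/-- The three error terms, summed. -/
theorem errsum (κ : ℝ) (hκ : 1 / 2 ≤ κ) (hκ1 : κ ≤ 1) (hK : KB κ) (ε : ℝ) (hε : 0 < ε)
    (hε1 : ε < 1 / 8) (θ : ℝ) (hθ : 0 < θ) :
    ∀ᶠ T : ℝ in atTop, ∀ k : ℕ, kr T k →
      ∑ b ∈ Sset (1 + κ) ε T, |cc (1 + κ) ε T b| * (Real.sqrt ((b 1 : ℝ) / b 0) *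
        ‖SN k T b - ((psi (b 0) / b 1 * mB k T b : ℝ) : ℂ)‖) ≤ θ * Real.log T ^ 9 := by
  obtain ⟨C, A, hC, hS⟩ := SN_approx κ hκ hκ1 hK (ε / 4) (by positivity)
  obtain ⟨Cp, hCp, hpsi⟩ := psi_le (ε / 4) (by positivity)
  obtain ⟨Ch, hCh, hhq⟩ := sum_hq
  obtain ⟨Cw, hCw, hw⟩ := sum_w1_le
  have hlam : 1 ≤ 1 + κ := by linarith
  set K1 : ℝ := C * Cp * Ch * 4 ^ A * 32 with hK1
  set K3 : ℝ := C * Cp * 4 ^ A * 32 with hK3
  have hK10 : 0 < K1 := by positivity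
  have hK30 : 0 < K3 := by positivity
  have hθ1 : 0 < θ / (C * Cw * 5 * 2 ^ 6 * 3) := by positivity
  have hL9 : ∀ᶠ T : ℝ in atTop, 3 / θ ≤ Real.log T ^ 9 :=
    ((tendsto_pow_atTop (by norm_num)).comp Real.tendsto_log_atTop).eventually_ge_atTop _
  filter_upwards [logk_small _ hθ1, Yf_size, hL9, polylog_small K1 (ε / 2) (by positivity) (2 * A + 7),
    polylog_small K3 (1 / 8 - ε / 2) (by linarith) (2 * A + 6), eventually_gt_atTop (Real.exp 1),
    eventually_gt_atTop 1] with T hlk hYs hL9 hp1 hp3 hTe hT k hk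
  obtain ⟨hk1, -⟩ := kr_pos hTe hk
  obtain ⟨hlk1, hlk2, hlk3⟩ := hlk k hk
  obtain ⟨hY1, hYT, hYl⟩ := hYs k hk
  set Y := Yf k T with hY
  have hk1' : (1:ℝ) ≤ k := by exact_mod_cast hk1
  have hL1 : 1 < Real.log T := by
    rw [Real.lt_log_iff_exp_lt (by linarith)]; exact hTe
  set L := Real.log T with hLdef
  have hT0 : 0 < T := by linarith
  have hY0 : 0 < Y := by linarith
  have hL0 : 0 < L := by linarith
  have hkA : (k:ℝ) ^ A ≤ 4 ^ A * (1 + L) ^ (2 * A) := by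
    calc (k:ℝ) ^ A ≤ (4 * (1 + L) ^ 2) ^ A := by
          apply pow_le_pow_left₀ (by linarith)
          have := hk.2
          nlinarith
      _ = _ := by rw [mul_pow, ← pow_mul]
  have hkpi : 2 * Real.pi * k ≤ 32 * (1 + L) ^ 2 := by
    have := hk.2
    have := Real.pi_le_four
    have := Real.pi_gt_three
    nlinarith
  have hYinv : 1 / Y = 2 * Real.pi * k * T ^ (-1 : ℝ) := by
    rw [hY]; unfold Yf
    rw [Real.rpow_neg hT0.le, Real.rpow_one]
    field_simp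
  have hY4 : Y ^ (-(1 / 4) : ℝ) ≤ 2 * Real.pi * k * T ^ (-(1 / 4) : ℝ) := by
    have hx1 : (1:ℝ) ≤ 2 * Real.pi * k := by nlinarith [Real.pi_gt_three]
    have e : Y = T * (2 * Real.pi * k)⁻¹ := by rw [hY]; unfold Yf; rw [div_eq_mul_inv]
    rw [e, Real.mul_rpow hT0.le (by positivity), Real.inv_rpow (by positivity),
      ← Real.rpow_neg (by positivity), neg_neg, mul_comm]
    refine mul_le_mul_of_nonneg_right ?_ (by positivity)
    calc (2 * Real.pi * k) ^ (1 / 4 : ℝ) ≤ (2 * Real.pi * k) ^ (1:ℝ) :=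
          Real.rpow_le_rpow_of_exponent_le hx1 (by norm_num)
      _ = _ := Real.rpow_one _
  -- termwise bound
  set E1 : ℝ := K1 / Ch * (1 + L) ^ (2 * A + 4) * T ^ (-(ε / 2)) with hE1
  set E3 : ℝ := K3 * (1 + L) ^ (2 * A + 4) * T ^ (-(1 / 8 - ε / 2)) with hE3
  set E2 : ℝ := C * (5 * L ^ 3) * (1 + Real.log k) ^ 2 with hE2
  have hterm : ∀ b ∈ Sset (1 + κ) ε T, |cc (1 + κ) ε T b| * (Real.sqrt ((b 1 : ℝ) / b 0) *
        ‖SN k T b - ((psi (b 0) / b 1 * mB k T b : ℝ) : ℂ)‖) ≤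
      E1 * ((hq (b 0) ^ (1 / 2 : ℝ) / (b 0 : ℝ)) * (1 / (b 1 : ℝ))) +
      E2 * (w1 b * Em (b 0) ^ 2) + E3 * ((1 / (b 0 : ℝ)) * (1 / (b 1 : ℝ))) := by
    intro b hb
    have hp := Sset_prop hlam hε hT hb
    have h0 : (0:ℝ) < b 0 := by exact_mod_cast hp.h0
    have h1 : (0:ℝ) < b 1 := by exact_mod_cast hp.h1
    have hlb0 : 0 ≤ Real.log (b 0) := Real.log_natCast_nonneg _
    have hlb1 : 0 ≤ Real.log (b 1) := Real.log_natCast_nonneg _
    have hps := psi_nonneg (b 0)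
    have hpsl := hpsi (b 0) hp.h0
    have hqq := hq_one_le (b 0)
    have hsn := hS k hk1 T hY1 b hp.h1 hp.leN hp.cop
    rw [← hY] at hsn
    have hcs := cc_sqrt hlam hε hT hb
    have hbT : (b 0 : ℝ) ^ (ε / 4) ≤ T ^ (ε / 4) :=
      Real.rpow_le_rpow h0.le hp.leT (by positivity)
    rw [← mul_assoc]
    refine le_trans (mul_le_mul hcs hsn (norm_nonneg _) (by positivity)) ?_
    rw [mul_add, mul_add]
    refine add_le_add (add_le_add ?_ ?_) ?_
    · -- first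
      have a1 : (b 0 : ℝ) ^ (1 + κ + ε / 4) = (b 0 : ℝ) ^ (1 + κ) * (b 0 : ℝ) ^ (ε / 4) :=
        Real.rpow_add h0 _ _
      have a2 : hq (b 0) ^ (1 - κ) ≤ hq (b 0) ^ (1 / 2 : ℝ) :=
        Real.rpow_le_rpow_of_exponent_le hqq (by linarith)
      have a3 : psi (b 0) ≤ Cp * T ^ (ε / 4) :=
        hpsl.trans (mul_le_mul_of_nonneg_left hbT hCp.le)
      have hqp : 0 ≤ hq (b 0) ^ (1 - κ) := by positivity
      calc L ^ 2 * (psi (b 0) / b 0) * (C * (k : ℝ) ^ A * (b 0 : ℝ) ^ (1 + κ + ε / 4) *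
            hq (b 0) ^ (1 - κ) / Y)
          = L ^ 2 * C * (k : ℝ) ^ A * psi (b 0) * (b 0 : ℝ) ^ (ε / 4) * (1 / Y) *
            hq (b 0) ^ (1 - κ) * ((b 0 : ℝ) ^ (1 + κ) * b 1) / ((b 0 : ℝ) * b 1) := by
            rw [a1]; field_simp
        _ ≤ (1 + L) ^ 2 * C * (4 ^ A * (1 + L) ^ (2 * A)) * (Cp * T ^ (ε / 4)) * T ^ (ε / 4) *
            (32 * (1 + L) ^ 2 * T ^ (-1 : ℝ)) * hq (b 0) ^ (1 / 2 : ℝ) * T ^ (1 - ε) /
            ((b 0 : ℝ) * b 1) := by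
            rw [hYinv]
            have hreg := hp.reg
            have hLL : L ^ 2 ≤ (1 + L) ^ 2 := by apply pow_le_pow_left₀ hL0.le; linarith
            gcongr
        _ = K1 / Ch * ((1 + L) ^ 2 * (1 + L) ^ (2 * A) * (1 + L) ^ 2) *
            (T ^ (ε / 4) * T ^ (ε / 4) * T ^ (-1 : ℝ) * T ^ (1 - ε)) *
            ((hq (b 0) ^ (1 / 2 : ℝ) / (b 0 : ℝ)) * (1 / (b 1 : ℝ))) := by
            rw [hK1]; field_simp
        _ = _ := by
            rw [hE1, ← Real.rpow_add hT0, ← Real.rpow_add hT0, ← Real.rpow_add hT0, ← pow_add,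
              ← pow_add]
            congr 3
            · congr 1; ring
            · congr 1; ring
    · -- second
      have a1 : |Real.log ((b 0 : ℝ) * Y / b 1)| ≤ 3 * L := by
        rw [Real.log_div (by positivity) (by positivity), Real.log_mul (by positivity) (by positivity)]
        have y0 : 0 ≤ Real.log Y := Real.log_nonneg hY1
        have y1 : Real.log Y ≤ L := Real.log_le_log hY0 hYT
        have := hp.l0
        have := hp.l1
        rw [abs_le]; constructor <;> linarith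
      have a2 : 1 + |Real.log ((b 0 : ℝ) * Y / b 1)| + Real.log (b 0) ≤ 5 * L := by
        have := hp.l0
        linarith
      have hlk0 : 0 ≤ Real.log k := Real.log_nonneg hk1'
      have a4 : 0 ≤ 1 + |Real.log ((b 0 : ℝ) * Y / b 1)| + Real.log (b 0) := by positivity
      calc L ^ 2 * (psi (b 0) / b 0) * (C * (psi (b 0) / b 1) * Em (b 0) ^ 2 *
            (1 + Real.log k) ^ 2 * (1 + |Real.log ((b 0 : ℝ) * Y / b 1)| + Real.log (b 0)))
          ≤ L ^ 2 * (psi (b 0) / b 0) * (C * (psi (b 0) / b 1) * Em (b 0) ^ 2 *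
            (1 + Real.log k) ^ 2 * (5 * L)) := by gcongr
        _ = _ := by
            rw [hE2, w1_eq hp]; field_simp
    · -- third
      have a3 : psi (b 0) ≤ Cp * T ^ (ε / 4) :=
        hpsl.trans (mul_le_mul_of_nonneg_left hbT hCp.le)
      have a5 : (b 1 : ℝ) ^ (-(3 / 4) : ℝ) ≤ T ^ (1 / 8 : ℝ) * (1 / (b 1 : ℝ)) := by
        have b1 : (b 1 : ℝ) ^ (1 / 4 : ℝ) ≤ T ^ (1 / 8 : ℝ) := by
          have c1 : (b 1 : ℝ) * b 1 ≤ T := by
            calc (b 1 : ℝ) * b 1 ≤ b 0 * b 1 := mul_le_mul_of_nonneg_right hp.le h1.le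
              _ ≤ T ^ (1 - ε) := hp.prod
              _ ≤ T ^ (1:ℝ) := Real.rpow_le_rpow_of_exponent_le hT.le (by linarith)
              _ = T := Real.rpow_one T
          calc (b 1 : ℝ) ^ (1 / 4 : ℝ) = ((b 1 : ℝ) * b 1) ^ (1 / 8 : ℝ) := by
                rw [Real.mul_rpow h1.le h1.le, ← Real.rpow_add h1]; norm_num
            _ ≤ T ^ (1 / 8 : ℝ) := Real.rpow_le_rpow (by positivity) c1 (by norm_num)
        have e : (b 1 : ℝ) ^ (-(3 / 4) : ℝ) = (b 1 : ℝ) ^ (1 / 4 : ℝ) * (1 / (b 1 : ℝ)) := by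
          rw [show (1 / (b 1 : ℝ)) = (b 1 : ℝ) ^ (-1 : ℝ) by rw [Real.rpow_neg_one, one_div],
            ← Real.rpow_add h1]
          norm_num
        rw [e]
        exact mul_le_mul_of_nonneg_right b1 (by positivity)
      calc L ^ 2 * (psi (b 0) / b 0) * (C * (k : ℝ) ^ A * (b 0 : ℝ) ^ (ε / 4) *
            (b 1 : ℝ) ^ (-(3 / 4) : ℝ) * Y ^ (-(1 / 4) : ℝ))
          ≤ (1 + L) ^ 2 * ((Cp * T ^ (ε / 4)) / b 0) * (C * (4 ^ A * (1 + L) ^ (2 * A)) *
            T ^ (ε / 4) * (T ^ (1 / 8 : ℝ) * (1 / (b 1 : ℝ))) *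
            (32 * (1 + L) ^ 2 * T ^ (-(1 / 4) : ℝ))) := by
            have hLL : L ^ 2 ≤ (1 + L) ^ 2 := by apply pow_le_pow_left₀ hL0.le; linarith
            have hY4' : Y ^ (-(1 / 4) : ℝ) ≤ 32 * (1 + L) ^ 2 * T ^ (-(1 / 4) : ℝ) :=
              hY4.trans (mul_le_mul_of_nonneg_right hkpi (by positivity))
            gcongr
        _ = K3 * ((1 + L) ^ 2 * (1 + L) ^ (2 * A) * (1 + L) ^ 2) *
            (T ^ (ε / 4) * T ^ (ε / 4) * T ^ (1 / 8 : ℝ) * T ^ (-(1 / 4) : ℝ)) *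
            ((1 / (b 0 : ℝ)) * (1 / (b 1 : ℝ))) := by
            rw [hK3]; field_simp
        _ = _ := by
            rw [hE3, ← Real.rpow_add hT0, ← Real.rpow_add hT0, ← Real.rpow_add hT0, ← pow_add,
              ← pow_add]
            congr 3
            · congr 1; ring
            · congr 1; ring
  refine le_trans (sum_le_sum hterm) ?_
  rw [sum_add_distrib, sum_add_distrib, ← mul_sum, ← mul_sum, ← mul_sum]
  have s1 : ∑ b ∈ Sset (1 + κ) ε T, (hq (b 0) ^ (1 / 2 : ℝ) / (b 0 : ℝ)) * (1 / (b 1 : ℝ)) ≤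
      Ch * (1 + L) ^ 3 := by
    refine le_trans (S_sum_le (1 + κ) ε T (fun h => hq h ^ (1 / 2 : ℝ) / (h : ℝ))
      (fun l => 1 / (l : ℝ)) (fun n => by
        have := hq_one_le n
        positivity) (fun n => by positivity)) ?_
    calc _ ≤ (Ch * (1 + L) ^ 2) * (1 + L) :=
          mul_le_mul (hhq T hT.le) (harm_le hT.le) (sum_nonneg fun l _ => by positivity)
            (by positivity)
      _ = _ := by ring
  have s2 := hw (1 + κ) ε T hlam hε hT
  have s3 : ∑ b ∈ Sset (1 + κ) ε T, (1 / (b 0 : ℝ)) * (1 / (b 1 : ℝ)) ≤ (1 + L) ^ 2 := by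
    refine le_trans (S_sum_le (1 + κ) ε T (fun h => 1 / (h : ℝ))
      (fun l => 1 / (l : ℝ)) (fun n => by positivity) (fun n => by positivity)) ?_
    calc _ ≤ (1 + L) * (1 + L) :=
          mul_le_mul (harm_le hT.le) (harm_le hT.le) (sum_nonneg fun l _ => by positivity)
            (by positivity)
      _ = _ := by ring
  have hE10 : 0 ≤ E1 := by positivity
  have hlk0 : 0 ≤ Real.log k := Real.log_nonneg hk1'
  have hE20 : 0 ≤ E2 := by positivity
  have hE30 : 0 ≤ E3 := by positivity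
  have hone : 1 ≤ θ / 3 * L ^ 9 := by
    rw [div_le_iff₀ hθ] at hL9
    linarith
  have t1 : E1 * ∑ b ∈ Sset (1 + κ) ε T, (hq (b 0) ^ (1 / 2 : ℝ) / (b 0 : ℝ)) *
      (1 / (b 1 : ℝ)) ≤ θ / 3 * L ^ 9 := by
    refine le_trans (mul_le_mul_of_nonneg_left s1 hE10) ?_
    refine le_trans ?_ hone
    calc E1 * (Ch * (1 + L) ^ 3) = (K1 * (1 + L) ^ (2 * A + 7)) * T ^ (-(ε / 2)) := by
          rw [hE1, show 2 * A + 7 = (2 * A + 4) + 3 by ring, pow_add (1 + L) (2 * A + 4) 3]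
          field_simp
      _ ≤ T ^ (ε / 2) * T ^ (-(ε / 2)) := mul_le_mul_of_nonneg_right hp1 (by positivity)
      _ = 1 := by rw [← Real.rpow_add hT0]; simp
  have t3 : E3 * ∑ b ∈ Sset (1 + κ) ε T, (1 / (b 0 : ℝ)) * (1 / (b 1 : ℝ)) ≤ θ / 3 * L ^ 9 := by
    refine le_trans (mul_le_mul_of_nonneg_left s3 hE30) ?_
    refine le_trans ?_ hone
    calc E3 * (1 + L) ^ 2 = (K3 * (1 + L) ^ (2 * A + 6)) * T ^ (-(1 / 8 - ε / 2)) := by
          rw [hE3, show 2 * A + 6 = (2 * A + 4) + 2 by ring, pow_add (1 + L) (2 * A + 4) 2]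
          ring
      _ ≤ T ^ (1 / 8 - ε / 2) * T ^ (-(1 / 8 - ε / 2)) :=
          mul_le_mul_of_nonneg_right hp3 (by positivity)
      _ = 1 := by rw [← Real.rpow_add hT0]; simp
  have t2 : E2 * ∑ b ∈ Sset (1 + κ) ε T, w1 b * Em (b 0) ^ 2 ≤ θ / 3 * L ^ 9 := by
    refine le_trans (mul_le_mul_of_nonneg_left s2 hE20) ?_
    have b1 : (1 + Real.log k) ^ 2 ≤ θ / (C * Cw * 5 * 2 ^ 6 * 3) * L := by
      refine le_trans ?_ hlk1
      apply pow_le_pow_left₀ (by linarith); linarith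
    have b2 : (1 + L) ^ 5 ≤ 2 ^ 6 * L ^ 5 := by
      calc (1 + L) ^ 5 ≤ (2 * L) ^ 5 := by apply pow_le_pow_left₀ (by linarith); linarith
        _ = 2 ^ 5 * L ^ 5 := by ring
        _ ≤ 2 ^ 6 * L ^ 5 := by
            have : 0 < L ^ 5 := by positivity
            nlinarith
    calc E2 * (Cw * (1 + L) ^ 5) ≤ (C * (5 * L ^ 3) * (θ / (C * Cw * 5 * 2 ^ 6 * 3) * L)) *
          (Cw * (2 ^ 6 * L ^ 5)) := by
          rw [hE2]; gcongr
      _ = θ / 3 * L ^ 9 := by field_simp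
  linarith

end

end Pool.Agent.H306R2.SM
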