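import Pool.Agent.H306R2.SM.Asm8

set_option autoImplicit false

/-! Assembly 9: the main term and the final lower bound. -/

namespace Pool.Agent.H306R2.SM

open Finset Filter Topology MeasureTheory Complex

noncomputable section

/-- `D(u) = 1 - u 1 - u 0 / 2` -/
def Df (u : Fin 2 → ℝ) : ℝ := 1 - u 1 - u 0 / 2

lemma Df_cont : Continuous Df := by unfold Df; fun_prop

/-- the value of the quadratic functional -/
def JJ (lam ε : ℝ) : ℝ := ∫ u : Fin 2 → ℝ, Gd ![4, 1] u * (Pf u ^ 2 * eta lam ε u)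

lemma Gd61 (u : Fin 2 → ℝ) : Gd ![6, 1] u = Gd ![4, 1] u * (u 0 ^ 2 / 20) := by
  unfold Gd
  rw [Fin.prod_univ_two, Fin.prod_univ_two]
  simp only [Matrix.cons_val_zero, Matrix.cons_val_one]
  unfold gd
  have g6 : Real.Gamma 6 = 120 := by
    rw [show (6:ℝ) = ((5:ℕ):ℝ) + 1 by norm_num, Real.Gamma_nat_eq_factorial]
    simp [Nat.factorial]
  have g4 : Real.Gamma 4 = 6 := by
    rw [show (4:ℝ) = ((3:ℕ):ℝ) + 1 by norm_num, Real.Gamma_nat_eq_factorial]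
    simp [Nat.factorial]
  split_ifs with h0 h1
  · rw [g6, g4, show (6:ℝ) - 1 = ((5:ℕ):ℝ) by norm_num, show (4:ℝ) - 1 = ((3:ℕ):ℝ) by norm_num,
      Real.rpow_natCast, Real.rpow_natCast]
    ring
  · simp
  · simp
  · simp

lemma phi_integrable {lam ε : ℝ} (hlam : 1 ≤ lam) (hε : 0 < ε) (g : (Fin 2 → ℝ) → ℝ)
    (hg : Continuous g) :
    Integrable (fun u : Fin 2 → ℝ => Gd ![4, 1] u * (phi lam ε u * g u)) :=
  tf_integrable (fun u => phi lam ε u * g u) ((phi_cont lam ε).mul hg) 1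
    (fun u hu hi => by rw [phi_zero hlam hε u hu hi, zero_mul]) zero_le_one
    (by intro i; fin_cases i <;> simp)

lemma J_main {lam ε : ℝ} (hlam : 1 ≤ lam) (hε : 0 < ε) :
    (∫ u : Fin 2 → ℝ, Gd ![4, 1] u * (phi lam ε u * Df u ^ 2)) / 2 -
      3 / 8 * (4 * ∫ u : Fin 2 → ℝ, Gd ![6, 1] u * phi lam ε u) = JJ lam ε := by
  have h1 := phi_integrable hlam hε (fun u => Df u ^ 2) (Df_cont.pow 2)
  have h2 := phi_integrable hlam hε (fun u => u 0 ^ 2 / 20) (by fun_prop)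
  have e2 : (fun u : Fin 2 → ℝ => Gd ![6, 1] u * phi lam ε u) =
      fun u => Gd ![4, 1] u * (phi lam ε u * (u 0 ^ 2 / 20)) := by
    funext u; rw [Gd61]; ring
  rw [e2, JJ, ← integral_div, ← integral_const_mul, ← integral_const_mul,
    ← integral_sub (h1.div_const 2) ((h2.const_mul 4).const_mul (3 / 8))]
  refine integral_congr_ae (Eventually.of_forall fun u => ?_)
  simp only [phi, Pf, Df]
  ring

lemma Gd_nonneg41 (u : Fin 2 → ℝ) : 0 ≤ Gd ![4, 1] u := by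
  unfold Gd
  refine prod_nonneg fun i _ => gd_nonneg ?_ _
  fin_cases i <;> simp

lemma J_sq {lam ε : ℝ} (hlam : 1 ≤ lam) (hε : 0 < ε) :
    ∫ u : Fin 2 → ℝ, Gd ![4, 1] u * (phi lam ε u * phi lam ε u) ≤ JJ lam ε := by
  have h1 := phi_integrable hlam hε (phi lam ε) (phi_cont lam ε)
  have h2 := phi_integrable hlam hε Pf Pf_cont
  have e : JJ lam ε = ∫ u : Fin 2 → ℝ, Gd ![4, 1] u * (phi lam ε u * Pf u) := by
    unfold JJ
    refine integral_congr_ae (Eventually.of_forall fun u => ?_)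
    simp only [phi]; ring
  rw [e]
  refine integral_mono h1 h2 fun u => ?_
  refine mul_le_mul_of_nonneg_left ?_ (Gd_nonneg41 u)
  unfold phi
  have a := eta_nonneg lam ε u
  have b := eta_le_one lam ε u
  have : Pf u * eta lam ε u * (Pf u * eta lam ε u) = (Pf u ^ 2 * eta lam ε u) * eta lam ε u := by
    ring
  rw [this, show Pf u * eta lam ε u * Pf u = (Pf u ^ 2 * eta lam ε u) * 1 by ring]
  exact mul_le_mul_of_nonneg_left b (by positivity)

lemma JJ_nonneg (lam ε : ℝ) : 0 ≤ JJ lam ε := by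
  unfold JJ
  refine integral_nonneg fun u => ?_
  exact mul_nonneg (Gd_nonneg41 u) (mul_nonneg (by positivity) (eta_nonneg _ _ _))

/-- the main sum -/
def MS (lam ε : ℝ) (k : ℕ) (T : ℝ) : ℝ :=
  ∑ b ∈ Sset lam ε T, cc lam ε T b * (Real.sqrt ((b 1 : ℝ) / b 0) * (psi (b 0) / b 1 * mB k T b))

lemma cc_main {lam ε T : ℝ} (hlam : 1 ≤ lam) (hε : 0 < ε) (hT : 1 < T) {b : Fin 2 → ℕ}
    (hb : b ∈ Sset lam ε T) (m : ℝ) :
    cc lam ε T b * (Real.sqrt ((b 1 : ℝ) / b 0) * (psi (b 0) / b 1 * m)) =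
      Real.log T ^ 2 * (w1 b * phi lam ε (pos (Real.log T) b) * m) := by
  have hp := Sset_prop hlam hε hT hb
  have h0 : (0:ℝ) < b 0 := by exact_mod_cast hp.h0
  have h1 : (0:ℝ) < b 1 := by exact_mod_cast hp.h1
  rw [w1_eq hp]
  have e : Real.sqrt ((b 1 : ℝ) / b 0) = (b 1 : ℝ) / Real.sqrt ((b 0 : ℝ) * b 1) := by
    rw [Real.sqrt_div h1.le, Real.sqrt_mul h0.le]
    have s0 := Real.sqrt_pos.mpr h0
    have s1 := Real.sqrt_pos.mpr h1
    field_simp
    rw [Real.sq_sqrt h1.le]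
  have hs : 0 < Real.sqrt ((b 0 : ℝ) * b 1) := Real.sqrt_pos.mpr (by positivity)
  have hss : Real.sqrt ((b 0 : ℝ) * b 1) ^ 2 = (b 0 : ℝ) * b 1 :=
    Real.sq_sqrt (by positivity)
  unfold cc
  rw [e]
  calc _ = Real.log T ^ 2 * (psi (b 0) ^ 2 / Real.sqrt ((b 0 : ℝ) * b 1) ^ 2 *
        phi lam ε (pos (Real.log T) b) * m) := by field_simp
    _ = _ := by rw [hss]

/-- lower bound for the main sum -/
lemma MS_lower (lam ε : ℝ) (hlam : 1 ≤ lam) (hε : 0 < ε) (θ : ℝ) (hθ : 0 < θ) :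
    ∀ᶠ T : ℝ in atTop, ∀ k : ℕ, kr T k →
      Real.log T ^ 4 / 2 * (∑ b ∈ Sset lam ε T, w1 b * (phi lam ε (pos (Real.log T) b) *
        Df (pos (Real.log T) b) ^ 2)) -
      3 / 8 * Real.log T ^ 2 * (∑ b ∈ Sset lam ε T, w1 b * Qf (b 0) *
        phi lam ε (pos (Real.log T) b)) - θ * Real.log T ^ 9 ≤ MS lam ε k T := by
  obtain ⟨C, hC, hw⟩ := sum_w1_le'
  have hθ1 : 0 < θ / (C * 2 ^ 6) := by positivity
  filter_upwards [logk_small _ hθ1, Yf_size, eventually_gt_atTop (Real.exp 1),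
    eventually_gt_atTop 1] with T hlk hYs hTe hT k hk
  obtain ⟨hlk1, hlk2, hlk3⟩ := hlk k hk
  obtain ⟨hY1, hYT, hYl⟩ := hYs k hk
  have hL1 : 1 < Real.log T := by
    rw [Real.lt_log_iff_exp_lt (by linarith)]; exact hTe
  set L := Real.log T with hLdef
  set a := Real.log (2 * Real.pi * k) with ha
  have hL0 : 0 < L := by linarith
  have hY0 : 0 < Yf k T := by linarith
  have hterm : ∀ b ∈ Sset lam ε T,
      L ^ 4 / 2 * (w1 b * (phi lam ε (pos L b) * Df (pos L b) ^ 2)) -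
      3 / 8 * L ^ 2 * (w1 b * Qf (b 0) * phi lam ε (pos L b)) -
      L ^ 2 * ((1 + a) ^ 2 * L) * w1 b ≤
      cc lam ε T b * (Real.sqrt ((b 1 : ℝ) / b 0) * (psi (b 0) / b 1 * mB k T b)) := by
    intro b hb
    have hp := Sset_prop hlam hε hT hb
    have h0 : (0:ℝ) < b 0 := by exact_mod_cast hp.h0
    have h1 : (0:ℝ) < b 1 := by exact_mod_cast hp.h1
    rw [cc_main hlam hε hT hb]
    have hlb0 : 0 ≤ Real.log (b 0) := Real.log_natCast_nonneg _
    have hlb1 : 0 ≤ Real.log (b 1) := Real.log_natCast_nonneg _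
    have em : mB k T b = ((L * Df (pos L b) - a) ^ 2 - 3 / 4 * Qf (b 0)) / 2 := by
      unfold mB
      rw [Real.log_div (by positivity) (by positivity), Real.log_mul (by positivity) (by positivity),
        hYl]
      congr 2
      unfold Df pos
      field_simp
      ring
    have hw0 := w1_nonneg b
    have hphi := phi_abs (lam := lam) (ε := ε) hlam hε (pos_nonneg hL0 b)
    have hD : |Df (pos L b)| ≤ 1 := by
      have l1 : Real.log (b 1) ≤ Real.log (b 0) := Real.log_le_log h1 hp.le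
      have l2 : Real.log (b 0) + Real.log (b 1) ≤ L := by
        rw [← Real.log_mul (by positivity) (by positivity)]
        refine Real.log_le_log (by positivity) (hp.prod.trans ?_)
        calc T ^ (1 - ε) ≤ T ^ (1:ℝ) := Real.rpow_le_rpow_of_exponent_le hT.le (by linarith)
          _ = T := Real.rpow_one T
      have e : Df (pos L b) = (L - Real.log (b 1) - Real.log (b 0) / 2) / L := by
        unfold Df pos; field_simp
      rw [e, abs_div, abs_of_pos hL0, div_le_one hL0, abs_le]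
      constructor <;> linarith
    set d := Df (pos L b) with hd
    set p := phi lam ε (pos L b) with hpdef
    set w := w1 b with hwdef
    have hdiff : L ^ 2 * (w * p * mB k T b) - (L ^ 4 / 2 * (w * (p * d ^ 2)) -
        3 / 8 * L ^ 2 * (w * Qf (b 0) * p)) = L ^ 2 * w * (p * ((a ^ 2 - 2 * a * L * d) / 2)) := by
      rw [em]; ring
    have hbd : |p * ((a ^ 2 - 2 * a * L * d) / 2)| ≤ (1 + a) ^ 2 * L := by
      rw [abs_mul]
      have h2 : |(a ^ 2 - 2 * a * L * d) / 2| ≤ (1 + a) ^ 2 * L := by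
        rw [abs_le] at hD ⊢
        have haL : 0 ≤ a * L := by positivity
        constructor <;> nlinarith [mul_nonneg haL (by linarith [hD.1] : 0 ≤ 1 + d),
          mul_nonneg haL (by linarith [hD.2] : 0 ≤ 1 - d), sq_nonneg a, mul_nonneg (sq_nonneg a) hL0.le]
      calc |p| * |(a ^ 2 - 2 * a * L * d) / 2| ≤ 1 * ((1 + a) ^ 2 * L) :=
            mul_le_mul hphi h2 (abs_nonneg _) zero_le_one
        _ = _ := one_mul _
    have hbd2 := (abs_le.mp hbd).1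
    have hLw : 0 ≤ L ^ 2 * w := by positivity
    have := mul_le_mul_of_nonneg_left hbd2 hLw
    nlinarith
  have hsum := sum_le_sum hterm
  rw [sum_sub_distrib, sum_sub_distrib, ← mul_sum, ← mul_sum, ← mul_sum] at hsum
  have hlast : L ^ 2 * ((1 + a) ^ 2 * L) * ∑ b ∈ Sset lam ε T, w1 b ≤ θ * L ^ 9 := by
    have b2 : (1 + L) ^ 5 ≤ 2 ^ 6 * L ^ 5 := by
      calc (1 + L) ^ 5 ≤ (2 * L) ^ 5 := by apply pow_le_pow_left₀ (by linarith); linarith
        _ = 2 ^ 5 * L ^ 5 := by ring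
        _ ≤ 2 ^ 6 * L ^ 5 := by
            have : 0 < L ^ 5 := by positivity
            nlinarith
    calc L ^ 2 * ((1 + a) ^ 2 * L) * ∑ b ∈ Sset lam ε T, w1 b ≤
          L ^ 2 * ((θ / (C * 2 ^ 6) * L) * L) * (C * (2 ^ 6 * L ^ 5)) := by
          have h3 := hw lam ε T hlam hε hT
          have h4 : ∑ b ∈ Sset lam ε T, w1 b ≤ C * (2 ^ 6 * L ^ 5) :=
            h3.trans (mul_le_mul_of_nonneg_left b2 hC.le)
          have h5 : 0 ≤ ∑ b ∈ Sset lam ε T, w1 b := sum_nonneg fun b _ => w1_nonneg b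
          gcongr
      _ = θ * L ^ 9 := by field_simp
  unfold MS
  linarith

/-- The final lower bound for the Gamma-weighted sixth moment. -/
theorem main_lower (κ : ℝ) (hκ : 1 / 2 ≤ κ) (hκ1 : κ ≤ 1) (hK : KB κ) (ε : ℝ) (hε : 0 < ε)
    (hε1 : ε < 1 / 8) (c : ℝ) (hc0 : 0 ≤ c)
    (hc : c < aF 3 * (2 * ((1 - ε) ^ 9 / (Nat.factorial 9 : ℝ) + JJ (1 + κ) ε))) :
    ∀ᶠ T : ℝ in atTop, ∀ k : ℕ, kr T k →
      c * Real.log T ^ 9 ≤ ∫ t in Set.Ioi (0 : ℝ), om k (k / T) t * ‖riemannZeta (cl t)‖ ^ 6 := by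
  have hlam : 1 ≤ 1 + κ := by linarith
  set lam := 1 + κ with hlamdef
  have haF : 0 < aF 3 := aF_pos (by norm_num)
  set J := JJ lam ε with hJ
  set gap := aF 3 * (2 * ((1 - ε) ^ 9 / (Nat.factorial 9 : ℝ) + J)) - c with hgap
  have hgap0 : 0 < gap := by rw [hgap]; linarith
  set θ := gap / 40 with hθ
  have hθ0 : 0 < θ := by positivity
  -- limits
  have l1 := (lim_w1 hlam hε (fun u => Df u ^ 2) (Df_cont.pow 2)).eventually
    (lt_mem_nhds (show aF 3 * (∫ u : Fin 2 → ℝ, Gd ![4, 1] u * (phi lam ε u * Df u ^ 2)) - θ <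
      aF 3 * ∫ u : Fin 2 → ℝ, Gd ![4, 1] u * (phi lam ε u * Df u ^ 2) by linarith))
  have l2 := (lim_w1Q hlam hε).eventually
    (gt_mem_nhds (show 4 * aF 3 * (∫ u : Fin 2 → ℝ, Gd ![6, 1] u * phi lam ε u) <
      4 * aF 3 * (∫ u : Fin 2 → ℝ, Gd ![6, 1] u * phi lam ε u) + θ by linarith))
  have l3 := (lim_w1 hlam hε (phi lam ε) (phi_cont lam ε)).eventually
    (gt_mem_nhds (show aF 3 * (∫ u : Fin 2 → ℝ, Gd ![4, 1] u * (phi lam ε u * phi lam ε u)) <
      aF 3 * (∫ u : Fin 2 → ℝ, Gd ![4, 1] u * (phi lam ε u * phi lam ε u)) + θ by linarith))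
  have l4 := Bs_lower ε hε (by linarith) (aF 3 * ((1 - ε) ^ 9 / (Nat.factorial 9 : ℝ)) - θ)
    (by linarith)
  have hL9 : ∀ᶠ T : ℝ in atTop, 20 / θ ≤ Real.log T ^ 9 :=
    ((tendsto_pow_atTop (by norm_num)).comp Real.tendsto_log_atTop).eventually_ge_atTop _
  filter_upwards [lower1 lam ε hlam hε (by linarith), B_part ε hε (by linarith),
    lemA lam ε hlam hε, errsum κ hκ hκ1 hK ε hε hε1 θ hθ0, MS_lower lam ε hlam hε θ hθ0,
    sum_cc_le hlam hε, sum_b_le hε (by linarith), l1, l2, l3, l4, hL9,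
    polylog_small (1 + c) (1 / 4) (by norm_num) 9, eventually_gt_atTop (Real.exp 1),
    eventually_gt_atTop 1]
    with T q1' q2' q3' q4' q5' q6 q7 l1 l2 l3 l4 hL9 hpl hTe hT k hk
  have q1 := q1' k hk
  have q2 := q2' k hk.1 hk.2
  have q3 := q3' k hk
  have q4 := q4' k hk
  have q5 := q5' k hk
  clear q1' q2' q3' q4' q5'
  obtain ⟨hk1, hδ⟩ := kr_pos hTe hk
  by_contra hlt
  push Not at hlt
  set I := ∫ t in Set.Ioi (0 : ℝ), om k (k / T) t * ‖riemannZeta (cl t)‖ ^ 6 with hI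
  have hL1 : 1 < Real.log T := by
    rw [Real.lt_log_iff_exp_lt (by linarith)]; exact hTe
  set L := Real.log T with hLdef
  have hL0 : 0 < L := by linarith
  have hT0 : 0 < T := by linarith
  have hL9p : 0 < L ^ 9 := by positivity
  -- the n-sum
  have r1 : Bs ε T - T ^ (-1 : ℝ) * T ^ (1 / 2 : ℝ) ≤
      ∑ n ∈ Icc 1 ⌊T ^ (1 - ε)⌋₊, (d3 n / Real.sqrt n) *
      (∫ t in Set.Ioi (0:ℝ), (om k (k / T) t : ℂ) * riemannZeta (cl t) ^ 3 *
        ef (Real.log n) t).re := by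
    have h1 : ∀ n ∈ Icc 1 ⌊T ^ (1 - ε)⌋₊, (d3 n / Real.sqrt n) ^ 2 -
        T ^ (-1 : ℝ) * |d3 n / Real.sqrt n| ≤ (d3 n / Real.sqrt n) *
      (∫ t in Set.Ioi (0:ℝ), (om k (k / T) t : ℂ) * riemannZeta (cl t) ^ 3 *
        ef (Real.log n) t).re := by
      intro n hn
      rw [mem_Icc] at hn
      have h2 := q2 n hn.1 ((Nat.le_floor_iff (by positivity)).mp hn.2)
      have h3 := (Complex.abs_re_le_norm _).trans h2
      rw [Complex.sub_re, Complex.ofReal_re] at h3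
      have h4 := (abs_le.mp h3).1
      have h5 : 0 ≤ d3 n / Real.sqrt n := div_nonneg (d3_nonneg n) (Real.sqrt_nonneg _)
      rw [abs_of_nonneg h5]
      nlinarith
    have h2 := sum_le_sum h1
    rw [sum_sub_distrib, ← mul_sum] at h2
    have h3 : T ^ (-1 : ℝ) * ∑ n ∈ Icc 1 ⌊T ^ (1 - ε)⌋₊, |d3 n / Real.sqrt n| ≤
        T ^ (-1 : ℝ) * T ^ (1 / 2 : ℝ) := mul_le_mul_of_nonneg_left q7 (by positivity)
    have h4 : Bs ε T = ∑ n ∈ Icc 1 ⌊T ^ (1 - ε)⌋₊, (d3 n / Real.sqrt n) ^ 2 := rfl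
    rw [h4]
    linarith
  -- the b-sum
  set EA := T ^ (-(3 / 4) : ℝ) * ((1 + I) / 2) + T ^ (-5 : ℝ) with hEA
  have hI0 : 0 ≤ I := by
    rw [hI]
    refine setIntegral_nonneg measurableSet_Ioi fun t ht => ?_
    exact mul_nonneg (om_nonneg k hδ (le_of_lt ht)) (by positivity)
  have r2 : MS lam ε k T - T ^ (1 / 2 : ℝ) * EA - θ * L ^ 9 ≤
      ∑ b ∈ Sset lam ε T, cc lam ε T b * (∫ t in Set.Ioi (0:ℝ), (om k (k / T) t : ℂ) *
        (riemannZeta (cl t) ^ 3 * Xf (cl t)) * ef (fr2 b) t).re := by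
    have h1 : ∀ b ∈ Sset lam ε T, cc lam ε T b * (Real.sqrt ((b 1 : ℝ) / b 0) *
        (psi (b 0) / b 1 * mB k T b)) - |cc lam ε T b| * EA -
        |cc lam ε T b| * (Real.sqrt ((b 1 : ℝ) / b 0) *
          ‖SN k T b - ((psi (b 0) / b 1 * mB k T b : ℝ) : ℂ)‖) ≤
        cc lam ε T b * (∫ t in Set.Ioi (0:ℝ), (om k (k / T) t : ℂ) *
        (riemannZeta (cl t) ^ 3 * Xf (cl t)) * ef (fr2 b) t).re := by
      intro b hb
      have h2 := q3 b hb
      set N := ∫ t in Set.Ioi (0:ℝ), (om k (k / T) t : ℂ) *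
        (riemannZeta (cl t) ^ 3 * Xf (cl t)) * ef (fr2 b) t with hN
      have h3 : ‖N - ((Real.sqrt ((b 1 : ℝ) / b 0) * (psi (b 0) / b 1 * mB k T b) : ℝ) : ℂ)‖ ≤
          EA + Real.sqrt ((b 1 : ℝ) / b 0) *
            ‖SN k T b - ((psi (b 0) / b 1 * mB k T b : ℝ) : ℂ)‖ := by
        have e : N - ((Real.sqrt ((b 1 : ℝ) / b 0) * (psi (b 0) / b 1 * mB k T b) : ℝ) : ℂ) =
            (N - (Real.sqrt ((b 1 : ℝ) / b 0) : ℂ) * (SS k (b 0) (b 1) (Yf k T) /
            (((k.factorial : ℝ) * Yf k T ^ (k + 1) : ℝ) : ℂ))) +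
            (Real.sqrt ((b 1 : ℝ) / b 0) : ℂ) *
            (SN k T b - ((psi (b 0) / b 1 * mB k T b : ℝ) : ℂ)) := by
          unfold SN; push_cast; ring
        rw [e]
        refine (norm_add_le _ _).trans (add_le_add h2 ?_)
        rw [norm_mul, Complex.norm_real, Real.norm_of_nonneg (Real.sqrt_nonneg _)]
      have h4 := (Complex.abs_re_le_norm _).trans h3
      rw [Complex.sub_re, Complex.ofReal_re] at h4
      have h5 : |cc lam ε T b * (N.re - Real.sqrt ((b 1 : ℝ) / b 0) *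
          (psi (b 0) / b 1 * mB k T b))| ≤ |cc lam ε T b| * (EA + Real.sqrt ((b 1 : ℝ) / b 0) *
            ‖SN k T b - ((psi (b 0) / b 1 * mB k T b : ℝ) : ℂ)‖) := by
        rw [abs_mul]
        exact mul_le_mul_of_nonneg_left h4 (abs_nonneg _)
      have h6 := (abs_le.mp h5).1
      nlinarith
    have h2 := sum_le_sum h1
    rw [sum_sub_distrib, sum_sub_distrib, ← sum_mul] at h2
    have h3 : (∑ b ∈ Sset lam ε T, |cc lam ε T b|) * EA ≤ T ^ (1 / 2 : ℝ) * EA :=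
      mul_le_mul_of_nonneg_right q6 (by positivity)
    have h4 : MS lam ε k T = ∑ b ∈ Sset lam ε T, cc lam ε T b *
      (Real.sqrt ((b 1 : ℝ) / b 0) * (psi (b 0) / b 1 * mB k T b)) := rfl
    rw [h4]
    linarith
  -- sum of squares
  have r3 : ∑ b ∈ Sset lam ε T, cc lam ε T b ^ 2 ≤ (aF 3 * J + θ) * L ^ 9 := by
    have h1 : ∑ b ∈ Sset lam ε T, cc lam ε T b ^ 2 = L ^ 4 * ∑ b ∈ Sset lam ε T, w1 b *
        (phi lam ε (pos L b) * phi lam ε (pos L b)) := by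
      rw [mul_sum]
      exact sum_congr rfl fun b hb => cc_sq hlam hε hT hb
    rw [h1]
    have h2 := l3
    rw [div_lt_iff₀ (by positivity)] at h2
    have h3 := mul_le_mul_of_nonneg_left (J_sq hlam hε) haF.le
    calc L ^ 4 * ∑ b ∈ Sset lam ε T, w1 b * (phi lam ε (pos L b) * phi lam ε (pos L b)) ≤
          L ^ 4 * ((aF 3 * J + θ) * L ^ 5) := by
          refine mul_le_mul_of_nonneg_left (h2.le.trans ?_) (by positivity)
          refine mul_le_mul_of_nonneg_right ?_ (by positivity)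
          linarith
      _ = _ := by ring
  -- main sum
  have r4 : (aF 3 * J - 2 * θ) * L ^ 9 ≤ MS lam ε k T := by
    have h1 := l1
    have h2 := l2
    rw [lt_div_iff₀ (by positivity)] at h1
    rw [div_lt_iff₀ (by positivity)] at h2
    have h3 : L ^ 4 / 2 * ((aF 3 * (∫ u : Fin 2 → ℝ, Gd ![4, 1] u * (phi lam ε u * Df u ^ 2)) - θ)
        * L ^ 5) ≤ L ^ 4 / 2 * (∑ b ∈ Sset lam ε T, w1 b * (phi lam ε (pos L b) *
        Df (pos L b) ^ 2)) := mul_le_mul_of_nonneg_left h1.le (by positivity)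
    have h4 : 3 / 8 * L ^ 2 * (∑ b ∈ Sset lam ε T, w1 b * Qf (b 0) *
        phi lam ε (pos L b)) ≤ 3 / 8 * L ^ 2 * ((4 * aF 3 * (∫ u : Fin 2 → ℝ, Gd ![6, 1] u *
          phi lam ε u) + θ) * L ^ 7) := mul_le_mul_of_nonneg_left h2.le (by positivity)
    have h5 := J_main hlam hε
    have h6 : aF 3 * J = aF 3 * ((∫ u : Fin 2 → ℝ, Gd ![4, 1] u * (phi lam ε u * Df u ^ 2)) / 2 -
      3 / 8 * (4 * ∫ u : Fin 2 → ℝ, Gd ![6, 1] u * phi lam ε u)) := by rw [h5]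
    nlinarith
  -- conclusion
  have e1 : T ^ (-1 : ℝ) * T ^ (1 / 2 : ℝ) ≤ 1 := by
    rw [← Real.rpow_add hT0]
    exact Real.rpow_le_one_of_one_le_of_nonpos hT.le (by norm_num)
  have e2 : T ^ (1 / 2 : ℝ) * EA ≤ 2 := by
    rw [hEA, mul_add]
    have a1 : T ^ (1 / 2 : ℝ) * T ^ (-5 : ℝ) ≤ 1 := by
      rw [← Real.rpow_add hT0]
      exact Real.rpow_le_one_of_one_le_of_nonpos hT.le (by norm_num)
    have a2 : T ^ (1 / 2 : ℝ) * (T ^ (-(3 / 4) : ℝ) * ((1 + I) / 2)) ≤ 1 := by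
      have a3 : (1 + I) / 2 ≤ T ^ (1 / 4 : ℝ) := by
        have b1 : (1 + c) * L ^ 9 ≤ (1 + c) * (1 + L) ^ 9 := by
          refine mul_le_mul_of_nonneg_left ?_ (by linarith)
          apply pow_le_pow_left₀ hL0.le; linarith
        have b2 : 1 ≤ L ^ 9 := one_le_pow₀ hL1.le
        nlinarith
      calc T ^ (1 / 2 : ℝ) * (T ^ (-(3 / 4) : ℝ) * ((1 + I) / 2)) ≤
            T ^ (1 / 2 : ℝ) * (T ^ (-(3 / 4) : ℝ) * T ^ (1 / 4 : ℝ)) := by gcongr
        _ = 1 := by rw [← Real.rpow_add hT0, ← Real.rpow_add hT0]; norm_num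
    linarith
  have e3 : T ^ (-5 : ℝ) * ((∑ n ∈ Icc 1 ⌊T ^ (1 - ε)⌋₊, |d3 n / Real.sqrt n|) +
      ∑ b ∈ Sset lam ε T, |cc lam ε T b|) ^ 2 ≤ 4 := by
    calc T ^ (-5 : ℝ) * ((∑ n ∈ Icc 1 ⌊T ^ (1 - ε)⌋₊, |d3 n / Real.sqrt n|) +
      ∑ b ∈ Sset lam ε T, |cc lam ε T b|) ^ 2 ≤
          T ^ (-5 : ℝ) * (T ^ (1 / 2 : ℝ) + T ^ (1 / 2 : ℝ)) ^ 2 := by
          refine mul_le_mul_of_nonneg_left ?_ (by positivity)
          apply pow_le_pow_left₀ _ (add_le_add q7 q6)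
          exact add_nonneg (sum_nonneg fun _ _ => abs_nonneg _) (sum_nonneg fun _ _ => abs_nonneg _)
      _ = 4 * (T ^ (-5 : ℝ) * (T ^ (1 / 2 : ℝ) * T ^ (1 / 2 : ℝ))) := by ring
      _ ≤ 4 * 1 := by
          refine mul_le_mul_of_nonneg_left ?_ (by norm_num)
          rw [← Real.rpow_add hT0, ← Real.rpow_add hT0]
          exact Real.rpow_le_one_of_one_le_of_nonpos hT.le (by norm_num)
      _ = 4 := by norm_num
  have hLθ : 20 ≤ θ * L ^ 9 := by
    rw [div_le_iff₀ hθ0] at hL9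
    linarith
  have hB4 : (aF 3 * ((1 - ε) ^ 9 / (Nat.factorial 9 : ℝ)) - θ) * L ^ 9 ≤ Bs ε T := l4
  have hfin : c * L ^ 9 = (aF 3 * (2 * ((1 - ε) ^ 9 / (Nat.factorial 9 : ℝ) + J)) - 40 * θ) *
      L ^ 9 := by
    rw [hθ, hgap]; ring
  nlinarith

end

end Pool.Agent.H306R2.SM
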