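import Pool.Agent.H306R2.SM.Defs
import Pool.Agent.H306R2.ZetaGrowth
import Pool.Agent.H306R2.Asy
import Pool.Agent.H768R2.SM_T0c
import Pool.Agent.H965R2.SM_T1
import Pool.Agent.H768R2.SM_T2
import Pool.Agent.H768R2.SM_T2b
import Pool.Agent.H497R2.SM_T3
import Pool.Agent.H800R2.SM_T4a
import Pool.Agent.H402R2.SM_T4b
import Pool.Agent.H831R2.SMT5
import Pool.Agent.H493R2.SM_T6Gb
import Pool.Agent.H498R2.SM_T8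
import Pool.Agent.H950R2.SM_T9a
import Pool.Agent.H851R2.SM.RhoC
import Pool.Agent.H851R2.SM.RhoD
import Pool.Agent.H851R2.SM.RhoE
import Pool.Agent.H605R2.SM_T9b1
import Pool.Agent.H705R2.SM_T9c
import Pool.Agent.H345R2.SMT10
import Pool.Agent.H345R2.SMT11
import Pool.Agent.H99R2.SM_T12
import Pool.Agent.H745R2.SM_T13

set_option autoImplicit false

/-!
Inputs of the sixth moment lower bound, proved in the imported modules.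
-/

namespace Pool.Agent.H306R2.SM

open Finset Filter Topology MeasureTheory Complex

noncomputable section

/-- T0c -/
theorem Xf_line (t : ℝ) : ‖Xf (cl t)‖ = 1 :=
  Pool.Agent.H768R2.SM_T0c.Xf_line t

/-- T0d -/
theorem Xf_fe (t : ℝ) : Xf (cl t) * riemannZeta (cl t) = (starRingEnd ℂ) (riemannZeta (cl t)) :=
  Pool.Agent.H768R2.SM_T0c.Xf_fe t

/-- T0e -/
theorem Xf_continuous : Continuous (fun t : ℝ => Xf (cl t)) :=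
  Pool.Agent.H768R2.SM_T0c.Xf_continuous

/-- T1 -/
theorem window_gamma (f : ℝ → ℝ) (hf : Continuous f) (hf0 : ∀ t, 0 ≤ f t)
    (hA : ∃ C : ℝ, ∃ A : ℕ, ∀ t : ℝ, 0 ≤ t → f t ≤ C * (1 + t) ^ A) (c : ℝ) (hc : 0 ≤ c) (m : ℕ)
    (h : ∀ᶠ T : ℝ in atTop, ∀ k : ℕ, Real.log T ^ 2 ≤ k → (k : ℝ) ≤ 4 * Real.log T ^ 2 →
      c * Real.log T ^ m ≤ ∫ t in Set.Ioi (0 : ℝ), om k (k / T) t * f t) :
    ∀ c' < c, ∀ᶠ T : ℝ in atTop, c' * T * Real.log T ^ m ≤ ∫ t in (0 : ℝ)..T, f t :=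
  Pool.Agent.H965R2.SMT1.window_gamma f hf hf0 hA c hc m h

/-- T2 -/
theorem norm_diag {ι : Type*} (s : Finset ι) (x : ι → ℂ) (θ : ι → ℝ) (G : ℝ) (hG : 0 < G)
    (hsep : ∀ i ∈ s, ∀ j ∈ s, i ≠ j → G ≤ |θ i - θ j|) (k : ℕ) (δ : ℝ) (hδ : 0 < δ) :
    |(∫ t in Set.Ioi (0 : ℝ), om k δ t * ‖∑ i ∈ s, x i * ef (-(θ i)) t‖ ^ 2) -
      ∑ i ∈ s, ‖x i‖ ^ 2| ≤ (∑ i ∈ s, ‖x i‖) ^ 2 * (δ / G) ^ (k + 1) :=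
  Pool.Agent.H768R2.SM_T2.norm_diag s x θ G hG hsep k δ hδ

/-- T2b -/
theorem rat_sep (M : ℝ) (h l h' l' : ℕ) (hh : 1 ≤ h) (hl : 1 ≤ l) (hh' : 1 ≤ h')
    (hl' : 1 ≤ l') (hc : Nat.Coprime h l) (hc' : Nat.Coprime h' l') (hne : (h, l) ≠ (h', l'))
    (hM : (h : ℝ) * l ≤ M) (hM' : (h' : ℝ) * l' ≤ M) :
    1 / (2 * M) ≤ |Real.log ((h : ℝ) / l) - Real.log ((h' : ℝ) / l')| :=
  Pool.Agent.H768R2.SM_T2b.rat_sep M h l h' l' hh hl hh' hl' hc hc' hne hM hM'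

/-- T3 -/
theorem osc (ε : ℝ) (hε : 0 < ε) (hε1 : ε < 1) (m : ℕ) (hm : 1 ≤ m) (hm3 : m ≤ 3) :
    ∀ᶠ T : ℝ in atTop, ∀ k : ℕ, Real.log T ^ 2 ≤ k → (k : ℝ) ≤ 4 * Real.log T ^ 2 →
      ∀ r : ℝ, 0 < r → r ≤ T ^ ((m : ℝ) - ε) →
        ‖∫ t in Set.Ioi (0 : ℝ), (om k (k / T) t : ℂ) * Xf (cl t) ^ m * ef (-(Real.log r)) t‖ ≤
          T ^ (-5 : ℝ) :=
  Pool.Agent.H497R2.SMT3.osc ε hε hε1 m hm hm3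

/-- T4a -/
theorem Gf_approx : ∀ᶠ T : ℝ in atTop, ∀ k : ℕ, Real.log T ^ 2 ≤ k → (k : ℝ) ≤ 4 * Real.log T ^ 2 →
      ∀ t : ℝ, 0 < t → ‖(om k (k / T) t : ℂ) * Xf (cl t) - Gf k (k / T) (cl t)‖ ≤
        T ^ (-(3 / 4) : ℝ) * om k (k / T) t + T ^ (-20 : ℝ) * (1 + t) ^ (-20 : ℝ) :=
  Pool.Agent.H800R2.SM4a.Gf_approx

/-- T4b -/
theorem twist_main : ∀ᶠ T : ℝ in atTop, ∀ k : ℕ, Real.log T ^ 2 ≤ k → (k : ℝ) ≤ 4 * Real.log T ^ 2 →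
      ∀ h l : ℕ, 1 ≤ l → l ≤ h → (h : ℝ) ≤ T →
        ‖(∫ t in Set.Ioi (0 : ℝ), riemannZeta (cl t) ^ 3 * Gf k (k / T) (cl t) *
            ef (Real.log ((h : ℝ) / l)) t) -
          (Real.sqrt ((l : ℝ) / h) : ℂ) * (SS k h l (Yf k T) /
            (((k.factorial : ℝ) * Yf k T ^ (k + 1) : ℝ) : ℂ))‖ ≤ T ^ (-6 : ℝ) :=
  Pool.Agent.H402R2.twist_main

/-- T5 -/
theorem B_part (ε : ℝ) (hε : 0 < ε) (hε1 : ε < 1) :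
    ∀ᶠ T : ℝ in atTop, ∀ k : ℕ, Real.log T ^ 2 ≤ k → (k : ℝ) ≤ 4 * Real.log T ^ 2 →
      ∀ n : ℕ, 1 ≤ n → (n : ℝ) ≤ T ^ (1 - ε) →
        ‖(∫ t in Set.Ioi (0 : ℝ), (om k (k / T) t : ℂ) * riemannZeta (cl t) ^ 3 *
            ef (Real.log n) t) - ((d3 n / Real.sqrt n : ℝ) : ℂ)‖ ≤ T ^ (-1 : ℝ) :=
  Pool.Agent.H831R2.SMT5.B_part ε hε hε1

/-- T6G (from T6F and T7) -/
theorem D_bound (κ : ℝ) (hκ : 1 / 2 ≤ κ) (hκ1 : κ ≤ 1) (hK : KB κ) (ε : ℝ) (hε : 0 < ε) :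
    ∃ C : ℝ, ∃ A : ℕ, 0 < C ∧ ∀ k : ℕ, 1 ≤ k → ∀ h l : ℕ, 1 ≤ l → l ≤ h → Nat.Coprime h l →
      ∀ Y : ℝ, 1 ≤ Y → ‖SS k h l Y - MM k h l Y‖ ≤
        C * (k : ℝ) ^ A * (k.factorial : ℝ) * Y ^ k * (h : ℝ) ^ (1 + κ + ε) * hq h ^ (1 - κ) :=
  Pool.Agent.H493R2.SM.D_bound κ hκ hκ1 hK ε hε

/-- T8 (Weil bound) -/
theorem kloosterman_weil : KB (1 / 2) :=
  Pool.Agent.H498R2.kloosterman_weil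

/-- T9a -/
theorem V_asymp : ∃ C : ℝ, ∃ A : ℕ, ∃ b1 b0 : ℕ → ℝ, 0 < C ∧
    (∀ k : ℕ, 1 ≤ k → |b1 k| ≤ C * (1 + Real.log k) ∧ |b0 k| ≤ C * (1 + Real.log k) ^ 2) ∧
    ∀ k : ℕ, 1 ≤ k → ∀ u : ℝ, 0 < u →
      |Vk k u - u * (Real.log u ^ 2 / 2 + b1 k * Real.log u + b0 k)| ≤
        C * (k : ℝ) ^ A * u ^ (3 / 4 : ℝ) :=
  Pool.Agent.H950R2.V_asymp

/-- T9b1 (from T9r) -/
theorem rho_conv (h n : ℕ) (hh : 1 ≤ h) (hn : 1 ≤ n) :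
    (d3 n : ℂ) * rc h n = ((∑ e ∈ n.divisors, rho h e * d3 (n / e) : ℝ) : ℂ) :=
  Pool.Agent.H605R2.SM_T9b1.rho_conv h n hh hn

/-- T9b2 : the support of `rho h` -/
theorem rho_supp (h e : ℕ) (hh : 1 ≤ h) (he : rho h e ≠ 0) : e ∈ (h ^ 3).divisors :=
  Pool.Agent.H851R2.SM.rho_supp h e hh he

/-- T9b3 : moments of `rho h` -/
theorem rho_zero (h : ℕ) (hh : 1 ≤ h) :
    ∑ e ∈ (h ^ 3).divisors, rho h e / (e : ℝ) = psi h / h :=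
  Pool.Agent.H851R2.SM.rho_zero h hh

/-- T9b4 -/
theorem rho_one_two : ∃ C : ℝ, 0 < C ∧ ∀ h : ℕ, 1 ≤ h →
    |(-∑ e ∈ (h ^ 3).divisors, rho h e * Real.log e / (e : ℝ)) +
        3 / 2 * Real.log h * (psi h / h)| ≤ C * Em h * (psi h / h) ∧
    |(∑ e ∈ (h ^ 3).divisors, rho h e * Real.log e ^ 2 / (e : ℝ)) -
        ((3 / 2 * Real.log h) ^ 2 - 3 / 4 * Qf h) * (psi h / h)| ≤
      C * Em h ^ 2 * (1 + Real.log h) * (psi h / h) :=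
  Pool.Agent.H851R2.SM.rho_one_two

/-- T9b5 -/
theorem rho_abs (ε : ℝ) (hε : 0 < ε) : ∃ C : ℝ, 0 < C ∧ ∀ h : ℕ, 1 ≤ h →
    ∑ e ∈ (h ^ 3).divisors, |rho h e| * (e : ℝ) ^ (-(3 / 4) : ℝ) ≤ C * (h : ℝ) ^ (-(3 / 4) + ε) :=
  Pool.Agent.H851R2.SM.rho_abs ε hε

/-- T9c (from T9a, T9b) -/
theorem M_asymp (ε : ℝ) (hε : 0 < ε) : ∃ C : ℝ, ∃ A : ℕ, 0 < C ∧ ∀ k : ℕ, 1 ≤ k →
    ∀ h l : ℕ, 1 ≤ h → 1 ≤ l → ∀ Y : ℝ, 1 ≤ Y →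
      ‖MM k h l Y / (((k.factorial : ℝ) * Y ^ (k + 1) : ℝ) : ℂ) -
        ((psi h / l * (((Real.log (h * Y / l) - 3 / 2 * Real.log h) ^ 2 - 3 / 4 * Qf h) / 2) : ℝ) : ℂ)‖
      ≤ C * (psi h / l) * Em h ^ 2 * (1 + Real.log k) ^ 2 *
          (1 + |Real.log (h * Y / l)| + Real.log h) +
        C * (k : ℝ) ^ A * (h : ℝ) ^ ε * (l : ℝ) ^ (-(3 / 4) : ℝ) * Y ^ (-(1 / 4) : ℝ) :=
  Pool.Agent.H705R2.SMT9c.M_asymp_of V_asymp rho_conv rho_supp rho_zero rho_one_two rho_abs ε hε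

/-- T10a -/
theorem w1_KH : KH 2 w1 :=
  Pool.Agent.H345.SMT10.w1_KH

/-- T10b -/
theorem w1_lim (s : Fin 2 → ℝ) (hs : ∀ i, 0 < s i) :
    Tendsto (fun L : ℝ => (∑' b : Fin 2 → ℕ, w1 b * ∏ i, (b i : ℝ) ^ (-(s i / L))) / L ^ (5 : ℝ))
      atTop (𝓝 (aF 3 * ∏ i, (s i) ^ (-((![4, 1] : Fin 2 → ℝ) i)))) :=
  Pool.Agent.H345.SMT10.w1_lim s hs

/-- T11a -/
theorem w1Q_KH : KH 2 w1Q :=
  Pool.Agent.H345.SMT11.w1Q_KH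

/-- T11b -/
theorem w1Q_lim (s : Fin 2 → ℝ) (hs : ∀ i, 0 < s i) :
    Tendsto (fun L : ℝ => (∑' b : Fin 2 → ℕ, w1Q b * ∏ i, (b i : ℝ) ^ (-(s i / L))) / L ^ (7 : ℝ))
      atTop (𝓝 (4 * aF 3 * ∏ i, (s i) ^ (-((![6, 1] : Fin 2 → ℝ) i)))) :=
  Pool.Agent.H345.SMT11.w1Q_lim s hs

/-- T12a -/
theorem sum_psi_Em : ∃ C : ℝ, 0 < C ∧ ∀ x : ℝ, 1 ≤ x →
    ∑ h ∈ Icc 1 ⌊x⌋₊, psi h ^ 2 * Em h ^ 2 / (h : ℝ) ≤ C * (1 + Real.log x) ^ 4 :=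
  Pool.Agent.H99R2.SMT12.sum_psi_Em

/-- T12b -/
theorem sum_hq : ∃ C : ℝ, 0 < C ∧ ∀ x : ℝ, 1 ≤ x →
    ∑ h ∈ Icc 1 ⌊x⌋₊, hq h ^ (1 / 2 : ℝ) / (h : ℝ) ≤ C * (1 + Real.log x) ^ 2 :=
  Pool.Agent.H99R2.SMT12.sum_hq

/-- T12c -/
theorem psi_le (ε : ℝ) (hε : 0 < ε) : ∃ C : ℝ, 0 < C ∧ ∀ h : ℕ, 1 ≤ h →
    psi h ≤ C * (h : ℝ) ^ ε :=
  Pool.Agent.H99R2.SMT12.psi_le ε hε

/-- the optimal coefficient function (`u 0 = log h / L`, `u 1 = log l / L`) -/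
def Pf (u : Fin 2 → ℝ) : ℝ := (1 - u 1 - u 0 / 2) ^ 2 / 2 - 3 / 40 * u 0 ^ 2

/-- continuous cutoff to the region `λX+l ≤ 1-ε, X-l ≤ 1/2-ε, l ≤ X-ε` -/
def eta (lam ε : ℝ) (u : Fin 2 → ℝ) : ℝ :=
  sc (1 - 2 * ε) ε (lam * u 0 + u 1) * sc (1 / 2 - 2 * ε) ε (u 0 - u 1) *
    sc (-(2 * ε)) ε (u 1 - u 0)

/-- T13a -/
theorem integral_weil : 34.4 < 2 * ((1 - 1 / 10000 : ℝ) ^ 9 + (Nat.factorial 9 : ℝ) *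
    ∫ u : Fin 2 → ℝ, Gd ![4, 1] u * (Pf u ^ 2 * eta (3 / 2) (1 / 10000) u)) :=
  Pool.Agent.H745R2.SM13.integral_weil

end

end Pool.Agent.H306R2.SM
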